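import Pool.Agent.Helper86.Vass.Defs

/-!
# Smoothing double points, interlaced pairs of double points
-/

namespace VassBraid

/-- Smooth (respecting the orientation, that is: delete from the word) the double points number
`t` (numbered from `0` in the order in which they occur) with `e t = true`. -/
def smooth {n : ℕ} : SWord n → (ℕ → Bool) → SWord n
  | [], _ => []
  | (i, some b) :: s, e => (i, some b) :: smooth s e
  | (i, none) :: s, e =>
      if e 0 then smooth s (fun t => e (t + 1)) else (i, none) :: smooth s (fun t => e (t + 1))

/-- The double points number `j` and `k` are interlaced: smoothing both of them leaves a curve
with one component.  (For a singular knot this says that the four preimages of the two double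
points alternate on the circle; otherwise there are three components.) -/
def Interlaced {n : ℕ} (s : SWord n) (j k : ℕ) : Prop :=
  OneComp (smooth s fun t => decide (t = j ∨ t = k))

end VassBraid
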