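import Pool.Agent.Helper86.Vass.Super

/-!
# Level sets of supermodular functions on the cube: general form
-/

namespace VassBraid

open Finset Function

/-- mixed second difference -/
def sd {ι : Type*} [DecidableEq ι] (G : (ι → Bool) → ℚ) (x : ι → Bool) (i j : ι) : ℚ :=
  G (update (update x i true) j true) - G (update (update x i true) j false)
    - G (update (update x i false) j true) + G (update (update x i false) j false)

section SumForm

variable {r : ℕ} {κ : Type*} [Fintype κ] [DecidableEq κ]

lemma ind_supp {ι : Type*} [Fintype ι] [DecidableEq ι] (y : ι → Bool) :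
    ind (univ.filter fun j => y j = true) = y := by
  funext j; simp [ind]

theorem super_sum (hr : 0 < r) {F : ((Fin r ⊕ Fin r) ⊕ κ → Bool) → ℚ}
    (hs : ∀ x i j, i ≠ j → 0 ≤ sd F x i j)
    (hpq : ∀ t x, 0 < sd F x (Sum.inl (Sum.inl t)) (Sum.inl (Sum.inr t))) (a : ℚ) :
    ((univ.filter fun x => F x = a).card : ℝ)
      ≤ √(6 / √(√(r : ℝ))) * 2 ^ (Fintype.card ((Fin r ⊕ Fin r) ⊕ κ)) := by
  classical
  let el : (κ → Bool) → (Fin r → Bool) → (Fin r → Bool) → ((Fin r ⊕ Fin r) ⊕ κ → Bool) :=
    fun y0 x y => Sum.elim (Sum.elim x y) y0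
  have hel : ∀ y0 x z i b j c, el y0 (update x i b) (update z j c)
      = update (update (el y0 x z) (Sum.inl (Sum.inl i)) b) (Sum.inl (Sum.inr j)) c := by
    intro y0 x z i b j c
    funext k
    rcases k with (k | k) | k <;>
    simp only [el, Function.update_apply, Sum.elim_inl, Sum.elim_inr, Sum.inl.injEq,
      Sum.inr.injEq, reduceCtorEq, if_false]
  have hinc : ∀ y0 : κ → Bool, StrictInc (fun x y => F (el y0 x y)) := by
    intro y0 y y' hyy i hyi hyi' x
    let E : (Fin r → Bool) → ℚ := fun z =>
      F (el y0 (update x i true) z) - F (el y0 (update x i false) z)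
    have hE : ∀ z j, E (update z j true) - E (update z j false)
        = sd F (el y0 x z) (Sum.inl (Sum.inl i)) (Sum.inl (Sum.inr j)) := by
      intro z j
      simp only [E, hel, sd]
      ring
    let K : Finset (Fin r) → ℚ := fun S => E (ind S)
    have hK : ∀ S j, j ∉ S → K (insert j S) - K S
        = sd F (el y0 x (ind S)) (Sum.inl (Sum.inl i)) (Sum.inl (Sum.inr j)) := by
      intro S j hj
      rw [← hE]
      simp only [K]
      rw [ind_insert, ind_not_mem S j hj]
    have hKm : Monotone K := by
      rw [Finset.monotone_iff_forall_le_insert]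
      intro S j hj
      have h1 := hK S j hj
      have h2 := hs (el y0 x (ind S)) (Sum.inl (Sum.inl i)) (Sum.inl (Sum.inr j)) (by simp)
      linarith
    set S' : Finset (Fin r) := (univ.filter fun j => y' j = true).erase i with hS'
    have h1 : K (univ.filter fun j => y j = true) ≤ K S' := by
      apply hKm
      intro j hj
      rw [mem_filter] at hj
      rw [hS', mem_erase, mem_filter]
      refine ⟨?_, mem_univ _, hyy j hj.2⟩
      rintro rfl
      rw [hyi] at hj
      exact absurd hj.2 (by simp)
    have h2 := hK S' i (by simp [hS'])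
    have h3 := hpq i (el y0 x (ind S'))
    have h4 : insert i S' = univ.filter fun j => y' j = true := by
      rw [hS', insert_erase]
      simp [hyi']
    rw [h4] at h2
    have h5 : K (univ.filter fun j => y j = true) < K (univ.filter fun j => y' j = true) := by
      linarith
    simp only [K, ind_supp, E] at h5
    show F (el y0 (update x i false) y') - F (el y0 (update x i false) y)
      < F (el y0 (update x i true) y') - F (el y0 (update x i true) y)
    linarith
  have hfib : ∀ y0 : κ → Bool,
      ((((univ.filter fun x => F x = a).filter fun z => (fun k => z (Sum.inr k)) = y0).card : ℕ) : ℝ)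
      ≤ 4 ^ r * √(6 / √(√(r : ℝ))) := by
    intro y0
    have h := super_two hr (hinc y0) a
    have h1 : (((univ : Finset ((Fin r → Bool) × (Fin r → Bool))).filter
      fun p => F (el y0 p.1 p.2) = a).card : ℝ) ≤ √(16 ^ r * (6 / √(√(r : ℝ)))) :=
      Real.le_sqrt_of_sq_le h
    have h2 : √(16 ^ r * (6 / √(√(r : ℝ)))) = 4 ^ r * √(6 / √(√(r : ℝ))) := by
      rw [show (16 : ℝ) = 4 ^ 2 by norm_num, ← pow_mul, mul_comm 2 r, pow_mul,
        Real.sqrt_mul (by positivity), Real.sqrt_sq (by positivity)]
    rw [← h2]
    refine le_trans ?_ h1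
    norm_cast
    apply card_le_card_of_injOn
      (fun z => (fun t => z (Sum.inl (Sum.inl t)), fun t => z (Sum.inl (Sum.inr t))))
    · intro z hz
      rw [mem_coe, mem_filter, mem_filter] at hz
      rw [mem_coe, mem_filter]
      refine ⟨mem_univ _, ?_⟩
      have : el y0 (fun t => z (Sum.inl (Sum.inl t))) (fun t => z (Sum.inl (Sum.inr t))) = z := by
        rw [← hz.2]
        funext k
        rcases k with (k | k) | k <;> simp [el]
      simp only [this]
      exact hz.1.2
    · intro z hz z' hz' h
      rw [mem_coe, mem_filter] at hz hz'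
      simp only [Prod.mk.injEq] at h
      funext k
      rcases k with (k | k) | k
      · exact congrFun h.1 k
      · exact congrFun h.2 k
      · have e1 := congrFun hz.2 k
        have e2 := congrFun hz'.2 k
        exact e1.trans e2.symm
  have hsum : (univ.filter fun x => F x = a).card = ∑ y0 : κ → Bool,
      (((univ.filter fun x => F x = a).filter fun z => (fun k => z (Sum.inr k)) = y0).card) :=
    card_eq_sum_card_fiberwise (fun _ _ => mem_univ _)
  rw [hsum]
  push_cast
  calc ∑ y0 : κ → Bool,
      ((((univ.filter fun x => F x = a).filter fun z => (fun k => z (Sum.inr k)) = y0).card : ℕ) : ℝ)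
      ≤ ∑ _y0 : κ → Bool, 4 ^ r * √(6 / √(√(r : ℝ))) := sum_le_sum fun y0 _ => hfib y0
    _ = 2 ^ (Fintype.card κ) * (4 ^ r * √(6 / √(√(r : ℝ)))) := by
        rw [sum_const, card_univ, Fintype.card_fun, Fintype.card_bool, nsmul_eq_mul]
        push_cast; rfl
    _ = √(6 / √(√(r : ℝ))) * 2 ^ (Fintype.card ((Fin r ⊕ Fin r) ⊕ κ)) := by
        have : Fintype.card ((Fin r ⊕ Fin r) ⊕ κ) = 2 * r + Fintype.card κ := by
          simp [Fintype.card_sum]; ring
        rw [this, pow_add, pow_mul]
        norm_num
        ring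

end SumForm

/-- The level sets of a supermodular function on the cube, which is strictly supermodular with
respect to `r` disjoint pairs of coordinates. -/
theorem super_level {ι : Type*} [Fintype ι] [DecidableEq ι] {G : (ι → Bool) → ℚ}
    (hs : ∀ x i j, i ≠ j → 0 ≤ sd G x i j) {r : ℕ} (hr : 0 < r) (p q : Fin r → ι)
    (hinj : Injective (Sum.elim p q)) (hpq : ∀ t x, 0 < sd G x (p t) (q t)) (a : ℚ) :
    ((univ.filter fun x => G x = a).card : ℝ)
      ≤ 5 / 2 / (r : ℝ) ^ (1 / 8 : ℝ) * 2 ^ (Fintype.card ι) := by
  classical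
  set f : Fin r ⊕ Fin r → ι := Sum.elim p q with hf
  let e : (Fin r ⊕ Fin r) ⊕ ((Set.range f)ᶜ : Set ι) ≃ ι :=
    (Equiv.sumCongr (Equiv.ofInjective f hinj) (Equiv.refl _)).trans
      (Equiv.Set.sumCompl (Set.range f))
  have he : ∀ z, e (Sum.inl z) = f z := by
    intro z
    show (Equiv.Set.sumCompl (Set.range f)) (Sum.inl (Equiv.ofInjective f hinj z)) = f z
    rw [Equiv.Set.sumCompl_apply_inl]
    rfl
  have h := super_sum (κ := ((Set.range f)ᶜ : Set ι)) hr
    (F := fun x => G (x ∘ e.symm)) (by
      intro x i j hij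
      have := hs (x ∘ e.symm) (e i) (e j) (e.injective.ne hij)
      simpa only [sd, update_comp_symm] using this) (by
      intro t x
      have := hpq t (x ∘ e.symm)
      have h1 : e (Sum.inl (Sum.inl t)) = p t := by rw [he]; rfl
      have h2 : e (Sum.inl (Sum.inr t)) = q t := by rw [he]; rfl
      rw [← h1, ← h2] at this
      simpa only [sd, update_comp_symm] using this) a
  rw [card_comp G e a, Fintype.card_congr e] at h
  refine h.trans ?_
  gcongr
  have hrpos : (0 : ℝ) < r := by exact_mod_cast hr
  have hpos : (0 : ℝ) < (r : ℝ) ^ (1 / 8 : ℝ) := Real.rpow_pos_of_pos hrpos _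
  rw [Real.sqrt_le_left (by positivity)]
  have h1 : √(√(r : ℝ)) = ((r : ℝ) ^ (1 / 8 : ℝ)) ^ 2 := by
    rw [Real.sqrt_eq_rpow, Real.sqrt_eq_rpow, ← Real.rpow_mul hrpos.le, ← Real.rpow_natCast,
      ← Real.rpow_mul hrpos.le]
    norm_num
  rw [h1, div_pow]
  gcongr
  norm_num

end VassBraid
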