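import Pool.Agent.Helper86.Vass.Template
import Pool.Agent.Helper86.Vass.SuperCube
import Pool.Agent.Helper86.Vass.Smooth

/-!
# Resolutions of a singular closed braid with many interlaced pairs of double points
-/

namespace VassBraid

open Finset Function Matrix

lemma det_not_cycle {n : ℕ} (τ : Equiv.Perm (Fin (n + 1))) (h : ¬ ∀ a b, τ.SameCycle a b) :
    (1 - τ.permMatrix ℤ + vecMulVec (Pi.single 0 1) (Pi.single 0 1)).det = 0 := by
  classical
  have hb : ∃ b, ¬ τ.SameCycle b 0 := by
    by_contra hcon
    push Not at hcon
    exact h fun a b => (hcon a).trans (hcon b).symm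
  obtain ⟨b, hb⟩ := hb
  apply Matrix.exists_mulVec_eq_zero_iff.mp
  refine ⟨fun k => if τ.SameCycle b k then 1 else 0, ?_, ?_⟩
  · intro h0
    have := congrFun h0 b
    simp at this
    exact this (Equiv.Perm.SameCycle.refl _ _)
  · have hb0 : ¬ τ.SameCycle b 0 := hb
    funext i
    rw [add_mulVec, sub_mulVec, one_mulVec, Pi.add_apply, Pi.sub_apply, vecMulVec_mulVec]
    have h1 : (τ.permMatrix ℤ *ᵥ fun k => if τ.SameCycle b k then (1 : ℤ) else 0) i
        = if τ.SameCycle b i then 1 else 0 := by
      have : (τ.permMatrix ℤ *ᵥ fun k => if τ.SameCycle b k then (1 : ℤ) else 0) i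
          = if τ.SameCycle b (τ i) then 1 else 0 := by
        simp only [Matrix.mulVec, dotProduct, Equiv.Perm.permMatrix, PEquiv.toMatrix_apply,
          Equiv.toPEquiv_apply, Option.mem_def, Option.some.injEq]
        rw [Finset.sum_eq_single (τ i)]
        · simp
        · intro k _ hk; rw [if_neg (Ne.symm hk), zero_mul]
        · simp
      rw [this]
      simp only [Equiv.Perm.sameCycle_apply_right]
    rw [h1]
    simp [hb0]

lemma dt_one_link {n : ℕ} (w : Word n) (h : ¬ OneComp w) : dt (1 : ℤˣ) w = 0 := by
  rw [dt, bm_one]
  apply det_not_cycle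
  intro h'
  apply h
  intro a b
  exact (Equiv.Perm.sameCycle_inv).mp (h' a b)

lemma nab_one_link (x : CBraid) (h : ¬ IsKnot x) : nab (1 : ℤˣ) x = 0 := by
  have := dt_one_link x.2 h
  simp [nab, this]

open Classical in
lemma constCoeff_nab' (x : CBraid) :
    PowerSeries.constantCoeff (nab sX x) = if IsKnot x then 1 else 0 := by
  by_cases h : IsKnot x
  · rw [if_pos h, constCoeff_nab h]
  · rw [if_neg h, nab_map]
    have h1 : Units.map ((PowerSeries.constantCoeff : PowerSeries ℤ →+* ℤ) :
        PowerSeries ℤ →* ℤ) sX = 1 := by
      ext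
      simp [sX_val]
    rw [h1, nab_one_link x h]

open PowerSeries in
lemma f2_second' {n : ℕ} (u v w : Word n) (i j : Fin n) :
    f2 ⟨n, u ++ (i, true) :: (v ++ (j, true) :: w)⟩ - f2 ⟨n, u ++ (i, true) :: (v ++ (j, false) :: w)⟩
      - f2 ⟨n, u ++ (i, false) :: (v ++ (j, true) :: w)⟩
      + f2 ⟨n, u ++ (i, false) :: (v ++ (j, false) :: w)⟩
      = 4 * ((constantCoeff (nab sX ⟨n, u ++ v ++ w⟩) : ℤ) : ℚ) := by
  have e1 := nab_skein sX u (v ++ (j, true) :: w) i
  have e2 := nab_skein sX u (v ++ (j, false) :: w) i
  have e3 := nab_skein sX (u ++ v) w j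
  obtain ⟨y, hy, hy2⟩ := zX_eq
  have hz : (((sX⁻¹ : (PowerSeries ℤ)ˣ) : PowerSeries ℤ) - (sX : PowerSeries ℤ)) = X * y := hy
  rw [hz] at e1 e2 e3
  simp only [List.append_assoc] at e3
  have key : nab sX ⟨n, u ++ (i, true) :: (v ++ (j, true) :: w)⟩
      - nab sX ⟨n, u ++ (i, true) :: (v ++ (j, false) :: w)⟩
      - nab sX ⟨n, u ++ (i, false) :: (v ++ (j, true) :: w)⟩
      + nab sX ⟨n, u ++ (i, false) :: (v ++ (j, false) :: w)⟩
      = X ^ 2 * (y ^ 2 * nab sX ⟨n, u ++ (v ++ w)⟩) := by
    linear_combination e1 - e2 + X * y * e3
  have h2 := congrArg c2 key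
  rw [map_add, map_sub, map_sub] at h2
  simp only [c2_apply] at h2
  rw [coeff_X_pow_mul'] at h2
  simp only [le_refl, if_true, Nat.sub_self, coeff_zero_eq_constantCoeff, map_mul, map_pow,
    hy2] at h2
  have h3 : u ++ v ++ w = u ++ (v ++ w) := by simp
  rw [h3]
  simp only [f2]
  push_cast at h2
  linarith

section

variable {n : ℕ}

lemma smooth_append (u v : SWord n) : ∀ e : ℕ → Bool,
    smooth (u ++ v) e = smooth u e ++ smooth v (fun t => e (t + doublePoints u)) := by
  induction u with
  | nil => intro e; simp [smooth]
  | cons l u ih =>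
    intro e
    obtain ⟨i, b⟩ := l
    cases b with
    | some b => rw [List.cons_append, smooth, smooth, ih, doublePoints_some, List.cons_append]
    | none =>
      rw [List.cons_append, smooth, smooth, ih, doublePoints_none]
      by_cases h : e 0 = true
      · simp only [h, if_true]
        rfl
      · simp only [h, Bool.false_eq_true, if_false, List.cons_append]
        rfl

lemma smooth_false (s : SWord n) : ∀ e : ℕ → Bool, (∀ t < doublePoints s, e t = false) →
    smooth s e = s := by
  induction s with
  | nil => intro e _; simp [smooth]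
  | cons l s ih =>
    intro e h
    obtain ⟨i, b⟩ := l
    cases b with
    | some b => rw [smooth, ih e (by simpa using h)]
    | none =>
      rw [doublePoints_none] at h
      rw [smooth, h 0 (by omega), ih (fun t => e (t + 1)) (fun t ht => h (t + 1) (by omega))]
      simp

open Classical in
lemma gf_second' (s : SWord n) (j k : ℕ) (hjk : j < k) (hk : k < doublePoints s)
    (e : ℕ → Bool) :
    gf s (update (update e j true) k true) - gf s (update (update e j true) k false)
      - gf s (update (update e j false) k true) + gf s (update (update e j false) k false)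
      = 4 * (if Interlaced s j k then 1 else 0) := by
  obtain ⟨u, i, s', h1, hu⟩ := split_none s j (hjk.trans hk)
  have hdp : doublePoints s = j + (doublePoints s' + 1) := by
    rw [h1, doublePoints_append, doublePoints_none, hu]
  obtain ⟨v, i', w, h2, hv⟩ := split_none s' (k - j - 1) (by omega)
  subst h2
  have hfill : ∀ b c : Bool, fillN s (update (update e j b) k c)
      = fillN u e ++ (i, b) :: (fillN v (fun t => e (t + (j + 1)))
        ++ (i', c) :: fillN w (fun t => e (t + (k + 1)))) := by
    intro b c
    rw [h1, fillN_append, fillN, fillN_append, fillN]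
    have e1 : fillN u (update (update e j b) k c) = fillN u e := by
      apply fillN_congr
      intro t ht
      rw [hu] at ht
      rw [update_of_ne (by omega), update_of_ne (by omega)]
    have e2 : update (update e j b) k c (0 + doublePoints u) = b := by
      rw [hu, zero_add, update_of_ne (by omega), update_self]
    have e3 : fillN v (fun t => update (update e j b) k c (t + 1 + doublePoints u))
        = fillN v (fun t => e (t + (j + 1))) := by
      apply fillN_congr
      intro t ht
      rw [hv] at ht
      simp only [hu]
      rw [update_of_ne (by omega), update_of_ne (by omega)]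
      congr 1; ring
    have e4 : update (update e j b) k c (0 + doublePoints v + 1 + doublePoints u) = c := by
      have : 0 + doublePoints v + 1 + doublePoints u = k := by rw [hv, hu]; omega
      rw [this, update_self]
    have e5 : fillN w (fun t => update (update e j b) k c (t + 1 + doublePoints v + 1
        + doublePoints u)) = fillN w (fun t => e (t + (k + 1))) := by
      apply fillN_congr
      intro t ht
      have : t + 1 + doublePoints v + 1 + doublePoints u = t + (k + 1) := by rw [hv, hu]; omega
      simp only [this]
      rw [update_of_ne (by omega), update_of_ne (by omega)]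
    simp only [e1, e2, e3, e4, e5]
  have hsm : smooth s (fun t => decide (t = j ∨ t = k)) = u ++ (v ++ w) := by
    rw [h1, smooth_append, smooth, smooth_append, smooth]
    have e1 : smooth u (fun t => decide (t = j ∨ t = k)) = u := by
      apply smooth_false
      intro t ht
      rw [hu] at ht
      simp only [decide_eq_false_iff_not]
      omega
    have e2 : decide (0 + doublePoints u = j ∨ 0 + doublePoints u = k) = true := by
      rw [hu]; simp
    have e3 : smooth v (fun t => decide (t + 1 + doublePoints u = j ∨ t + 1 + doublePoints u = k))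
        = v := by
      apply smooth_false
      intro t ht
      rw [hv] at ht
      simp only [decide_eq_false_iff_not, hu]
      omega
    have e4 : decide (0 + doublePoints v + 1 + doublePoints u = j
        ∨ 0 + doublePoints v + 1 + doublePoints u = k) = true := by
      rw [hu, hv, decide_eq_true_eq]; right; omega
    have e5 : smooth w (fun t => decide (t + 1 + doublePoints v + 1 + doublePoints u = j
        ∨ t + 1 + doublePoints v + 1 + doublePoints u = k)) = w := by
      apply smooth_false
      intro t ht
      simp only [decide_eq_false_iff_not, hu, hv]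
      omega
    simp only [e1, e2, e3, e4, e5, if_true]
  have hone : IsKnot ⟨n, fillN u e ++ fillN v (fun t => e (t + (j + 1)))
      ++ fillN w (fun t => e (t + (k + 1)))⟩ ↔ Interlaced s j k := by
    have hp : perm (fillN u e ++ fillN v (fun t => e (t + (j + 1)))
      ++ fillN w (fun t => e (t + (k + 1)))) = perm (u ++ (v ++ w)) := by
      rw [perm_append, perm_append, perm_fillN, perm_fillN, perm_fillN, perm_append, perm_append,
        mul_assoc]
    rw [IsKnot, Interlaced, hsm, OneComp, OneComp]
    simp only [hp]
  have := f2_second' (fillN u e) (fillN v (fun t => e (t + (j + 1))))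
    (fillN w (fun t => e (t + (k + 1)))) i i'
  rw [constCoeff_nab'] at this
  simp only [hone] at this
  simp only [gf, hfill]
  push_cast at this
  exact this

lemma gf_ext (s : SWord n) (ε : Fin (doublePoints s) → Bool) :
    f2 ⟨n, fill s (List.ofFn ε)⟩ = gf s (ext ε) := by
  rw [gf, fill_eq]
  rfl

open Classical in
lemma sd_gf (s : SWord n) (x : Fin (doublePoints s) → Bool) (i j : Fin (doublePoints s))
    (hij : i ≠ j) : sd (fun ε : Fin (doublePoints s) → Bool => gf s (ext ε)) x i j
        = 4 * (if Interlaced s i j then 1 else 0) := by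
  have hij' : (i : ℕ) ≠ j := fun h => hij (Fin.ext h)
  have hcomm : ∀ b c : Bool, update (update (ext x) (j : ℕ) b) (i : ℕ) c
        = update (update (ext x) (i : ℕ) c) (j : ℕ) b := by
    intro b c
    funext t
    by_cases h1 : t = i
    · rw [h1]; simp [update_of_ne hij']
    · by_cases h2 : t = j
      · rw [h2]; simp [update_of_ne hij'.symm]
      · simp [update_of_ne h1, update_of_ne h2]
  have hisymm : Interlaced s i j ↔ Interlaced s j i := by
    simp only [Interlaced, or_comm]
  simp only [sd, ext_update]
  rcases lt_or_gt_of_ne hij' with hlt | hlt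
  · exact gf_second' s i j hlt j.2 (ext x)
  · have := gf_second' s j i hlt i.2 (ext x)
    simp only [hcomm] at this
    rw [if_congr hisymm rfl rfl]
    linarith

theorem shadow_level (s : SWord n) {r : ℕ} (hr : 0 < r)
    (p q : Fin r → Fin (doublePoints s)) (hinj : Injective (Sum.elim p q))
    (hpq : ∀ t, Interlaced s (p t) (q t)) (a : ℚ) :
    ((univ.filter fun ε : Fin (doublePoints s) → Bool =>
        f2 ⟨n, fill s (List.ofFn ε)⟩ = a).card : ℝ)
      ≤ 5 / 2 / (r : ℝ) ^ (1 / 8 : ℝ) * 2 ^ (doublePoints s) := by
  classical
  simp only [gf_ext]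
  have h := super_level (G := fun ε : Fin (doublePoints s) → Bool => gf s (ext ε))
    (by
      intro x i j hij
      rw [sd_gf s x i j hij]
      split_ifs <;> norm_num) hr p q hinj (by
      intro t x
      have hne : p t ≠ q t := by
        intro h
        have := @hinj (Sum.inl t) (Sum.inr t) h
        simp at this
      rw [sd_gf s x _ _ hne, if_pos (hpq t)]
      norm_num) a
  rw [Fintype.card_fin] at h
  exact h

end

end VassBraid
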