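import Pool.Agent.Helper86.Vass.Conway

namespace VassBraid

open Matrix

section

variable {R : Type*} [CommRing R]

/-- For a permutation which is one long cycle the regularised determinant is `1`. -/
lemma det_cycle {n : ℕ} (τ : Equiv.Perm (Fin (n + 1))) (h : ∀ a b, τ.SameCycle a b) :
    (1 - τ.permMatrix R + vecMulVec (Pi.single 0 1) (Pi.single 0 1)).det = 1 := by
  classical
  have hc : τ.IsCycleOn ((Finset.univ : Finset (Fin (n + 1))) : Set (Fin (n + 1))) := by
    refine ⟨by simp [Set.bijOn_univ, τ.bijective], fun a _ b _ => h a b⟩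
  have hcard : (Finset.univ : Finset (Fin (n + 1))).card = n + 1 := by simp
  have hsurj : Function.Surjective (fun k : Fin (n + 1) => (τ ^ (k : ℕ)) 0) := by
    intro b
    obtain ⟨k, hk, hk'⟩ := hc.exists_pow_eq (Finset.mem_univ 0) (Finset.mem_univ b)
    rw [hcard] at hk
    exact ⟨⟨k, hk⟩, hk'⟩
  have hbij : Function.Bijective (fun k : Fin (n + 1) => (τ ^ (k : ℕ)) 0) :=
    ⟨Finite.injective_iff_surjective.mpr hsurj, hsurj⟩
  set e : Fin (n + 1) ≃ Fin (n + 1) := Equiv.ofBijective _ hbij with he
  have e0 : e 0 = 0 := by simp [he, Equiv.ofBijective_apply]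
  have hτ : τ ^ (n + 1) = τ ^ (n + 1) := rfl
  have hpow : (τ ^ (n + 1)) 0 = 0 := by
    have := hc.pow_card_apply (Finset.mem_univ 0)
    rwa [hcard] at this
  have hstep : ∀ k l : Fin (n + 1), τ (e k) = e l → (k : ℕ) + 1 = l ∨ l = 0 := by
    intro k l hkl
    by_cases hk : (k : ℕ) + 1 < n + 1
    · left
      have : e ⟨(k : ℕ) + 1, hk⟩ = e l := by
        rw [← hkl]
        simp only [he, Equiv.ofBijective_apply]
        rw [pow_succ', Equiv.Perm.mul_apply]
      have := e.injective this
      rw [← this]
    · right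
      have hk' : (k : ℕ) + 1 = n + 1 := by omega
      have h1 : τ (e k) = 0 := by
        simp only [he, Equiv.ofBijective_apply]
        rw [← Equiv.Perm.mul_apply, ← pow_succ', hk', hpow]
      rw [h1] at hkl
      exact e.injective (by rw [← hkl, e0])
  set M : Matrix (Fin (n + 1)) (Fin (n + 1)) R :=
    1 - τ.permMatrix R + vecMulVec (Pi.single 0 1) (Pi.single 0 1) with hM
  -- column operation
  set c : Fin (n + 1) → R := fun i => if i = 0 then 0 else 1 with hcdef
  have hQ : (1 + vecMulVec c (Pi.single 0 1) : Matrix (Fin (n + 1)) (Fin (n + 1)) R).det = 1 := by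
    have := Matrix.det_one_add_replicateCol_mul_replicateRow (ι := Unit) c
      (Pi.single 0 1 : Fin (n + 1) → R)
    have h2 : (replicateCol Unit c * replicateRow Unit (Pi.single 0 1 : Fin (n + 1) → R))
        = vecMulVec c (Pi.single 0 1) := by
      ext i j; simp [Matrix.mul_apply, vecMulVec_apply]
    rw [h2] at this
    rw [this]
    simp [hcdef]
  set N : Matrix (Fin (n + 1)) (Fin (n + 1)) R := M * (1 + vecMulVec c (Pi.single 0 1)) with hN
  have hMQ : M.det = N.det := by
    rw [hN, det_mul, hQ, mul_one]
  have hsum : ∀ i, (M *ᵥ (c + Pi.single 0 1)) i = if i = 0 then 1 else 0 := by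
    intro i
    have hone : c + Pi.single 0 1 = 1 := by
      ext j
      by_cases hj : j = 0
      · subst hj; simp [hcdef]
      · simp [hcdef, hj]
    rw [hone]
    simp only [hM, add_mulVec, sub_mulVec, Pi.add_apply, Pi.sub_apply, one_mulVec]
    have h3 : (τ.permMatrix R *ᵥ (1 : Fin (n + 1) → R)) i = 1 := by
      simp [Matrix.mulVec, dotProduct, Equiv.Perm.permMatrix, PEquiv.toMatrix_apply]
    rw [h3]
    by_cases hi : i = 0
    · subst hi; simp [vecMulVec_apply, Matrix.mulVec, dotProduct]
    · simp [hi, vecMulVec_apply, Matrix.mulVec, dotProduct]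
  have hentry : ∀ i j, N i j = if j = 0 then (if i = 0 then 1 else 0) else M i j := by
    intro i j
    rw [hN, Matrix.mul_add, Matrix.mul_one, Matrix.add_apply, mul_vecMulVec, vecMulVec_apply]
    by_cases hj : j = 0
    · subst hj
      have := hsum i
      rw [mulVec_add, Pi.add_apply] at this
      simp only [Pi.single_eq_same, mul_one, if_true]
      rw [← this, add_comm]
      congr 1
      simp
    · simp [hj]
  rw [hMQ, ← det_submatrix_equiv_self e]
  rw [det_of_isUpperTriangular]
  · apply Finset.prod_eq_one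
    intro k _
    rw [submatrix_apply, hentry]
    by_cases hk : k = 0
    · subst hk; simp [e0]
    · have hk' : e k ≠ 0 := fun h' => hk (e.injective (by rw [h', e0]))
      have h4 : τ (e k) ≠ e k := by
        intro h'
        rcases hstep k k h' with h5 | h5
        · omega
        · exact hk h5
      simp [hk', hM, Equiv.Perm.permMatrix, PEquiv.toMatrix_apply, vecMulVec_apply, h4]
  · intro k l hkl
    simp only [id] at hkl
    rw [submatrix_apply, hentry]
    by_cases hl : l = 0
    · subst hl
      have : k ≠ 0 := by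
        intro h'; subst h'; exact lt_irrefl _ hkl
      have hk' : e k ≠ 0 := fun h' => this (e.injective (by rw [h', e0]))
      simp [e0, hk']
    · have hl' : e l ≠ 0 := fun h' => hl (e.injective (by rw [h', e0]))
      have hkl' : e k ≠ e l := fun h' => by
        have := e.injective h'
        subst this; exact lt_irrefl _ hkl
      have h4 : τ (e k) ≠ e l := by
        intro h'
        rcases hstep k l h' with h5 | h5
        · have : (l : ℕ) < k := hkl
          omega
        · exact hl h5
      have h6 : (Pi.single 0 1 : Fin (n + 1) → R) (e l) = 0 := by simp [hl']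
      simp only [hl', if_false, hM, Matrix.add_apply, Matrix.sub_apply, vecMulVec_apply, h6, mul_zero,
        add_zero, Matrix.one_apply_ne hkl']
      simp [Equiv.Perm.permMatrix, PEquiv.toMatrix_apply, h4]

lemma bl_one {n : ℕ} (l : Fin n × Bool) : bl (1 : Rˣ) l = (tr l.1).permMatrix R := by
  ext a b
  have h1 : l.1.castSucc ≠ l.1.succ := (Fin.castSucc_lt_succ).ne
  have hx : xc (1 : Rˣ) l.2 = 1 := by simp [xc]
  simp only [bl, hx, one_smul, nm, Matrix.add_apply, vecMulVec_apply, cv, rv, Units.val_one,
    Pi.sub_apply, Equiv.Perm.permMatrix, PEquiv.toMatrix_apply, tr, Pi.single_apply,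
    Matrix.one_apply]
  simp only [Equiv.toPEquiv_apply, Option.mem_def, Option.some.injEq, Equiv.swap_apply_def]
  by_cases ha : a = l.1.castSucc
  · subst ha
    by_cases hb : b = l.1.castSucc
    · subst hb; simp [h1, h1.symm]
    · by_cases hb' : b = l.1.succ
      · subst hb'; simp [h1, h1.symm]
      · simp [h1, hb, hb', Ne.symm hb, Ne.symm hb']
  · by_cases ha' : a = l.1.succ
    · subst ha'
      by_cases hb : b = l.1.castSucc
      · subst hb; simp [h1, h1.symm]
      · by_cases hb' : b = l.1.succ
        · subst hb'; simp [h1, h1.symm]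
        · simp [h1, h1.symm, hb, hb', Ne.symm hb, Ne.symm hb']
    · simp [ha, ha']

lemma bm_one {n : ℕ} (w : Word n) : bm (1 : Rˣ) w = ((perm w)⁻¹).permMatrix R := by
  induction w with
  | nil => simp [perm]
  | cons l w ih =>
    have : perm (l :: w) = tr l.1 * perm w := by simp [perm]
    rw [bm_cons, ih, bl_one, this, _root_.mul_inv_rev]
    have h2 : (tr l.1)⁻¹ = tr l.1 := by simp [tr]
    rw [h2, Matrix.permMatrix_mul]

lemma dt_one {n : ℕ} (w : Word n) (h : OneComp w) : dt (1 : Rˣ) w = 1 := by
  rw [dt, bm_one]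
  apply det_cycle
  intro a b
  exact (Equiv.Perm.sameCycle_inv).mpr (h a b)

lemma nab_one (x : CBraid) (h : IsKnot x) : nab (1 : Rˣ) x = 1 := by
  have := dt_one (R := R) x.2 h
  simp [nab, this]

end

end VassBraid
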