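import Pool.Agent.Helper86.Vass.Defs

/-!
# The Burau matrices and the Conway function of closed braids
-/

namespace VassBraid

open Matrix

section Burau

variable {R : Type*} [CommRing R] (t : Rˣ)

/-- column vector of the generator -/
def cv {n : ℕ} (i : Fin n) : Fin (n + 1) → R :=
  Pi.single i.succ 1 - Pi.single i.castSucc (t : R)

variable (R) in
/-- row vector of the generator -/
def rv {n : ℕ} (i : Fin n) : Fin (n + 1) → R :=
  Pi.single i.castSucc 1 - Pi.single i.succ 1

/-- the coefficient: `1` for a positive, `t⁻¹` for a negative letter. -/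
def xc (b : Bool) : R := if b then 1 else ((t⁻¹ : Rˣ) : R)

/-- rank one part of the generator -/
def nm {n : ℕ} (i : Fin n) : Matrix (Fin (n + 1)) (Fin (n + 1)) R := vecMulVec (cv t i) (rv R i)

/-- Burau matrix of a letter -/
def bl {n : ℕ} (l : Fin n × Bool) : Matrix (Fin (n + 1)) (Fin (n + 1)) R :=
  1 + xc t l.2 • nm t l.1

/-- Burau matrix of a word -/
def bm {n : ℕ} (w : Word n) : Matrix (Fin (n + 1)) (Fin (n + 1)) R := (w.map (bl t)).prod

@[simp] lemma bm_nil {n : ℕ} : bm t ([] : Word n) = 1 := rfl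

@[simp] lemma bm_cons {n : ℕ} (l : Fin n × Bool) (w : Word n) : bm t (l :: w) = bl t l * bm t w := by
  simp [bm]

@[simp] lemma bm_append {n : ℕ} (u v : Word n) : bm t (u ++ v) = bm t u * bm t v := by
  simp [bm]

lemma rv_dot {n : ℕ} (i : Fin n) (v : Fin (n + 1) → R) :
    rv R i ⬝ᵥ v = v i.castSucc - v i.succ := by
  simp [rv, sub_dotProduct]

lemma dot_cv {n : ℕ} (i : Fin n) (v : Fin (n + 1) → R) :
    v ⬝ᵥ cv t i = v i.succ - v i.castSucc * t := by
  simp [cv, dotProduct_sub]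

lemma rv_dot_cv_self {n : ℕ} (i : Fin n) : rv R i ⬝ᵥ cv t i = -(1 + (t : R)) := by
  have h1 : i.castSucc ≠ i.succ := (Fin.castSucc_lt_succ).ne
  rw [rv_dot]
  simp [cv, Pi.single_apply, h1, h1.symm]
  ring

lemma rv_dot_cv_succ {n : ℕ} {i j : Fin n} (h : (i : ℕ) + 1 = (j : ℕ)) :
    rv R i ⬝ᵥ cv t j = t := by
  have h1 : i.castSucc ≠ j.succ := by
    intro h'; have := congrArg Fin.val h'; simp at this; omega
  have h2 : i.castSucc ≠ j.castSucc := by
    intro h'; have := congrArg Fin.val h'; simp at this; omega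
  have h3 : i.succ ≠ j.succ := by
    intro h'; have := congrArg Fin.val h'; simp at this; omega
  have h4 : i.succ = j.castSucc := by
    apply Fin.ext; simp; omega
  rw [rv_dot]
  simp only [cv, Pi.sub_apply, Pi.single_apply, h1, h2, h3, h4, if_true, if_false]
  have h5 : j.castSucc ≠ j.succ := (Fin.castSucc_lt_succ).ne
  simp [h5]

lemma rv_dot_cv_pred {n : ℕ} {i j : Fin n} (h : (i : ℕ) + 1 = (j : ℕ)) :
    rv R j ⬝ᵥ cv t i = 1 := by
  have h2 : j.succ ≠ i.castSucc := by
    intro h'; have := congrArg Fin.val h'; simp at this; omega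
  have h3 : j.succ ≠ i.succ := by
    intro h'; have := congrArg Fin.val h'; simp at this; omega
  have h4 : j.castSucc = i.succ := by
    apply Fin.ext; simp; omega
  have h5 : i.succ ≠ i.castSucc := (Fin.castSucc_lt_succ).ne'
  rw [rv_dot]
  simp [cv, Pi.single_apply, h2, h3, h4, h5]

lemma rv_dot_cv_far {n : ℕ} {i j : Fin n} (h : (i : ℕ) + 2 ≤ (j : ℕ) ∨ (j : ℕ) + 2 ≤ (i : ℕ)) :
    rv R i ⬝ᵥ cv t j = 0 := by
  have h1 : i.castSucc ≠ j.castSucc := by
    intro h'; have := congrArg Fin.val h'; simp at this; omega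
  have h2 : i.castSucc ≠ j.succ := by
    intro h'; have := congrArg Fin.val h'; simp at this; omega
  have h3 : i.succ ≠ j.castSucc := by
    intro h'; have := congrArg Fin.val h'; simp at this; omega
  have h4 : i.succ ≠ j.succ := by
    intro h'; have := congrArg Fin.val h'; simp at this; omega
  rw [rv_dot]
  simp [cv, Pi.single_apply, h1, h2, h3, h4]

lemma nm_mul_nm {n : ℕ} (i j : Fin n) :
    nm t i * nm t j = (rv R i ⬝ᵥ cv t j) • vecMulVec (cv t i) (rv R j) := by
  rw [nm, nm, vecMulVec_mul_vecMulVec]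
  ext a b
  simp [vecMulVec_apply]
  ring

lemma nm_sq {n : ℕ} (i : Fin n) : nm t i * nm t i = (-(1 + (t : R))) • nm t i := by
  rw [nm_mul_nm, rv_dot_cv_self, nm]

lemma nm_far {n : ℕ} {i j : Fin n} (h : (i : ℕ) + 2 ≤ (j : ℕ) ∨ (j : ℕ) + 2 ≤ (i : ℕ)) :
    nm t i * nm t j = 0 := by
  rw [nm_mul_nm, rv_dot_cv_far t h, zero_smul]

lemma nm_iji {n : ℕ} {i j : Fin n} (h : (i : ℕ) + 1 = (j : ℕ)) :
    nm t i * nm t j * nm t i = (t : R) • nm t i := by
  rw [nm_mul_nm, rv_dot_cv_succ t h, nm, smul_mul_assoc, vecMulVec_mul_vecMulVec]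
  rw [rv_dot_cv_pred t h]
  ext a b
  simp [vecMulVec_apply]

lemma nm_jij {n : ℕ} {i j : Fin n} (h : (i : ℕ) + 1 = (j : ℕ)) :
    nm t j * nm t i * nm t j = (t : R) • nm t j := by
  rw [nm_mul_nm, rv_dot_cv_pred t h, nm, smul_mul_assoc, vecMulVec_mul_vecMulVec]
  rw [rv_dot_cv_succ t h]
  ext a b
  simp [vecMulVec_apply]

lemma bl_cancel {n : ℕ} (i : Fin n) (b : Bool) : bl t (i, b) * bl t (i, !b) = 1 := by
  have h : xc t b + xc t (!b) - xc t b * xc t (!b) * (1 + (t : R)) = 0 := by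
    cases b <;> simp [xc] <;> ring_nf <;> simp
  have : bl t (i, b) * bl t (i, !b)
      = 1 + (xc t b + xc t (!b) - xc t b * xc t (!b) * (1 + (t : R))) • nm t i := by
    simp only [bl]
    rw [add_mul, mul_add, mul_add, one_mul, mul_one, one_mul, smul_mul_smul_comm, nm_sq, smul_smul]
    module
  rw [this, h, zero_smul, add_zero]

lemma bl_comm {n : ℕ} {i j : Fin n} (h : (i : ℕ) + 2 ≤ (j : ℕ)) (b c : Bool) :
    bl t (i, b) * bl t (j, c) = bl t (j, c) * bl t (i, b) := by
  simp only [bl]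
  rw [add_mul, add_mul, mul_add, mul_add, mul_add, mul_add, smul_mul_smul_comm, smul_mul_smul_comm,
    nm_far t (Or.inl h), nm_far t (Or.inr h)]
  simp only [one_mul, mul_one, smul_zero]
  abel

lemma bl_braid {n : ℕ} {i j : Fin n} (h : (i : ℕ) + 1 = (j : ℕ)) :
    bl t (i, true) * bl t (j, true) * bl t (i, true)
      = bl t (j, true) * bl t (i, true) * bl t (j, true) := by
  have h1 := nm_sq t i
  have h2 := nm_sq t j
  have h3 := nm_iji t h
  have h4 := nm_jij t h
  simp only [bl, xc, if_true, one_smul]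
  have e1 : (1 + nm t i) * (1 + nm t j) * (1 + nm t i)
      = 1 + nm t i + nm t i + nm t j + nm t i * nm t j + nm t j * nm t i + nm t i * nm t i
        + nm t i * nm t j * nm t i := by noncomm_ring
  have e2 : (1 + nm t j) * (1 + nm t i) * (1 + nm t j)
      = 1 + nm t j + nm t j + nm t i + nm t j * nm t i + nm t i * nm t j + nm t j * nm t j
        + nm t j * nm t i * nm t j := by noncomm_ring
  rw [e1, e2, h1, h2, h3, h4]
  module

end Burau

end VassBraid
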