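import Pool.Agent.Helper86.Vass.LO

/-!
# Averaging over maximal chains of the cube
-/

namespace VassBraid

open Finset Function

section Chain

variable {r : ℕ}

/-- an element of the chain attached to the ranking `π` -/
def chn (π : Equiv.Perm (Fin r)) (l : ℕ) : Fin r → Bool := fun j => decide ((π j : ℕ) < l)

lemma card_chn (π : Equiv.Perm (Fin r)) (l : ℕ) (hl : l ≤ r) :
    (univ.filter fun j => chn π l j = true).card = l := by
  have h1 : (univ.filter fun j => chn π l j = true)
      = (univ.filter fun k : Fin r => (k : ℕ) < l).map π.symm.toEmbedding := by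
    ext j
    simp only [chn, mem_filter, mem_univ, true_and, mem_map, Equiv.coe_toEmbedding,
      decide_eq_true_eq]
    constructor
    · intro h; exact ⟨π j, h, by simp⟩
    · rintro ⟨k, hk, rfl⟩; simpa using hk
  rw [h1, card_map]
  have h2 : (univ.filter fun k : Fin r => (k : ℕ) < l) = (range l).attachFin (fun k hk => by
      rw [mem_range] at hk; omega) := by
    ext k; simp
  rw [h2, card_attachFin, card_range]

lemma chn_comp (π τ : Equiv.Perm (Fin r)) (l : ℕ) : chn π l ∘ τ = chn (τ.trans π) l := rfl

lemma chain_count (y : Fin r → Bool) (l : ℕ) (hl : l = (univ.filter fun j => y j = true).card) :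
    r.choose l * (univ.filter fun π : Equiv.Perm (Fin r) => chn π l = y).card = r.factorial := by
  classical
  have hlr : l ≤ r := by
    rw [hl]; exact (card_le_univ _).trans (by simp)
  set c : (Fin r → Bool) → ℕ := fun y => (univ.filter fun π : Equiv.Perm (Fin r) => chn π l = y).card
    with hc
  set L : Finset (Fin r → Bool) := univ.filter fun y => (univ.filter fun j => y j = true).card = l
    with hL
  have hsame : ∀ y' ∈ L, c y' = c y := by
    intro y' hy'
    rw [hL, mem_filter] at hy'
    have e : {j // y' j = true} ≃ {j // y j = true} := by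
      apply Fintype.equivOfCardEq
      rw [Fintype.card_subtype, Fintype.card_subtype, hy'.2, hl]
    have hcomp : y ∘ e.extendSubtype = y' := by
      funext j
      by_cases hj : y' j = true
      · have := e.extendSubtype_mem j hj
        simp [this, hj]
      · have := e.extendSubtype_not_mem j hj
        simp only [Bool.not_eq_true] at this hj
        simp [this, hj]
    set τ := e.extendSubtype with hτ
    symm
    apply card_bij (fun π _ => τ.trans π)
    · intro π hπ
      rw [mem_filter] at hπ ⊢
      refine ⟨mem_univ _, ?_⟩
      rw [← chn_comp, hπ.2, hcomp]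
    · intro π _ π' _ h
      ext j
      have := congrFun (congrArg DFunLike.coe h) (τ.symm j)
      simp only [Equiv.trans_apply, Equiv.apply_symm_apply] at this
      rw [this]
    · intro π hπ
      rw [mem_filter] at hπ
      refine ⟨τ.symm.trans π, ?_, ?_⟩
      · rw [mem_filter]
        refine ⟨mem_univ _, ?_⟩
        rw [← chn_comp, hπ.2, ← hcomp]
        funext j; simp
      · ext j; simp
  have hLc : L.card = r.choose l := by
    have h1 : L.card = (powersetCard l (univ : Finset (Fin r))).card := by
      apply card_bij (fun y _ => univ.filter fun j => y j = true)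
      · intro y hy
        rw [hL, mem_filter] at hy
        rw [mem_powersetCard]
        exact ⟨subset_univ _, hy.2⟩
      · intro y _ y' _ h
        funext j
        have := congrArg (fun s => j ∈ s) h
        simp only [mem_filter, mem_univ, true_and, eq_iff_iff] at this
        cases hy : y j <;> cases hy' : y' j <;> simp_all
      · intro S hS
        rw [mem_powersetCard] at hS
        refine ⟨fun j => decide (j ∈ S), ?_, ?_⟩
        · rw [hL, mem_filter]
          refine ⟨mem_univ _, ?_⟩
          simpa using hS.2
        · ext j; simp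
    rw [h1, card_powersetCard, card_univ, Fintype.card_fin]
  have htot : ∑ y' ∈ L, c y' = r.factorial := by
    have h1 : (univ : Finset (Equiv.Perm (Fin r))).card = ∑ y' ∈ L, c y' := by
      apply card_eq_sum_card_fiberwise
      intro π _
      rw [hL, mem_coe, mem_filter]
      exact ⟨mem_univ _, card_chn π l hlr⟩
    rw [← h1, card_univ, Fintype.card_perm, Fintype.card_fin]
  rw [sum_congr rfl hsame, sum_const, hLc, smul_eq_mul] at htot
  exact htot

/-- Averaging over chains. -/
lemma chain_sum (φ : (Fin r → Bool) → ℝ) :
    ∑ l ∈ range (r + 1), (r.choose l : ℝ) * ∑ π : Equiv.Perm (Fin r), φ (chn π l)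
      = (r.factorial : ℝ) * ∑ y, φ y := by
  classical
  have h1 : ∀ l ∈ range (r + 1), (r.choose l : ℝ) * ∑ π : Equiv.Perm (Fin r), φ (chn π l)
      = ∑ y ∈ univ.filter (fun y : Fin r → Bool => (univ.filter fun j => y j = true).card = l),
        (r.factorial : ℝ) * φ y := by
    intro l hl
    rw [mem_range] at hl
    have h2 : ∑ π : Equiv.Perm (Fin r), φ (chn π l)
        = ∑ y ∈ univ.filter (fun y : Fin r → Bool => (univ.filter fun j => y j = true).card = l),
          ∑ π ∈ univ.filter (fun π : Equiv.Perm (Fin r) => chn π l = y), φ (chn π l) := by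
      symm
      apply sum_fiberwise_of_maps_to
      intro π _
      rw [mem_filter]
      exact ⟨mem_univ _, card_chn π l (by omega)⟩
    rw [h2, mul_sum]
    apply sum_congr rfl
    intro y hy
    rw [mem_filter] at hy
    have h3 : ∑ π ∈ univ.filter (fun π : Equiv.Perm (Fin r) => chn π l = y), φ (chn π l)
        = ((univ.filter fun π : Equiv.Perm (Fin r) => chn π l = y).card : ℝ) * φ y := by
      rw [sum_congr rfl (fun π hπ => by rw [(mem_filter.mp hπ).2]), sum_const, nsmul_eq_mul]
    rw [h3, ← mul_assoc]
    congr 1
    have := chain_count y l hy.2.symm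
    exact_mod_cast this
  rw [sum_congr rfl h1, mul_sum]
  apply sum_fiberwise_of_maps_to
  intro y _
  rw [mem_range]
  have : (univ.filter fun j => y j = true).card ≤ r := (card_le_univ _).trans (by simp)
  omega

end Chain

/-- square of a sum of nonnegative numbers -/
lemma sq_sum_le (n : ℕ) (a : ℕ → ℝ) (ha : ∀ l, 0 ≤ a l) :
    (∑ l ∈ range n, a l) ^ 2 ≤ 2 * ∑ l ∈ range n, ∑ d ∈ range n, a l * a (l + d) := by
  have h1 : (∑ l ∈ range n, a l) ^ 2 = ∑ l ∈ range n, ∑ m ∈ range n, a l * a m := by
    rw [sq, sum_mul_sum]
  have h2 : ∑ l ∈ range n, ∑ m ∈ range n, a l * a m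
      ≤ ∑ l ∈ range n, ∑ m ∈ range n, ((if l ≤ m then a l * a m else 0)
        + (if m ≤ l then a m * a l else 0)) := by
    apply sum_le_sum; intro l _
    apply sum_le_sum; intro m _
    rcases le_total l m with h | h
    · rw [if_pos h]
      have : 0 ≤ (if m ≤ l then a m * a l else 0) := by
        split_ifs
        · exact mul_nonneg (ha _) (ha _)
        · exact le_refl _
      linarith
    · rw [if_pos h]
      have : 0 ≤ (if l ≤ m then a l * a m else 0) := by
        split_ifs
        · exact mul_nonneg (ha _) (ha _)
        · exact le_refl _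
      linarith [mul_comm (a l) (a m)]
  have h3 : ∑ l ∈ range n, ∑ m ∈ range n, ((if l ≤ m then a l * a m else 0)
        + (if m ≤ l then a m * a l else 0))
      = 2 * ∑ l ∈ range n, ∑ m ∈ range n, (if l ≤ m then a l * a m else 0) := by
    simp only [sum_add_distrib]
    rw [two_mul]
    congr 1
    rw [sum_comm]
  rw [h1]
  refine h2.trans ?_
  rw [h3]
  apply mul_le_mul_of_nonneg_left _ (by norm_num)
  apply sum_le_sum
  intro l hl
  rw [mem_range] at hl
  have h4 : ∑ m ∈ range n, (if l ≤ m then a l * a m else 0) = ∑ m ∈ Ico l n, a l * a m := by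
    rw [← sum_filter]
    apply sum_congr _ (fun _ _ => rfl)
    ext m
    simp [and_comm]
  rw [h4, sum_Ico_eq_sum_range]
  apply sum_le_sum_of_subset_of_nonneg
  · intro d hd
    rw [mem_range] at hd ⊢
    omega
  · intro d _ _
    exact mul_nonneg (ha _) (ha _)

end VassBraid
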