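import Pool.Agent.Helper86.Vass.Markov

namespace VassBraid

open Matrix

/-- exponent sum -/
def esum {n : ℕ} (w : Word n) : ℤ := (w.map fun l => if l.2 then (1 : ℤ) else -1).sum

@[simp] lemma esum_nil {n : ℕ} : esum ([] : Word n) = 0 := rfl

@[simp] lemma esum_cons {n : ℕ} (l : Fin n × Bool) (w : Word n) :
    esum (l :: w) = (if l.2 then (1 : ℤ) else -1) + esum w := by simp [esum]

@[simp] lemma esum_append {n : ℕ} (u v : Word n) : esum (u ++ v) = esum u + esum v := by
  simp [esum]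

@[simp] lemma esum_emb {n : ℕ} (u : Word n) : esum (emb u) = esum u := by
  induction u with
  | nil => rfl
  | cons l u ih =>
    have : emb (l :: u) = (l.1.castSucc, l.2) :: emb u := rfl
    rw [this, esum_cons, esum_cons, ih]

section

variable {R : Type*} [CommRing R] (s : Rˣ)

/-- The Conway polynomial `∇(z)` of the closed braid, evaluated at `z = s⁻¹ - s`. -/
def nab (x : CBraid) : R := ((s ^ ((x.1 : ℤ) - esum x.2) : Rˣ) : R) * dt (s ^ 2) x.2

lemma nab_skein {n : ℕ} (u v : Word n) (i : Fin n) :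
    nab s ⟨n, u ++ (i, true) :: v⟩ - nab s ⟨n, u ++ (i, false) :: v⟩
      = (((s⁻¹ : Rˣ) : R) - s) * nab s ⟨n, u ++ v⟩ := by
  have hs : (s : R) * ((s⁻¹ : Rˣ) : R) = 1 := by simp
  have h := dt_skein (s ^ 2) u v i
  simp only [Units.val_pow_eq_pow_val] at h
  simp only [nab]
  have e1 : ((n : ℤ) - esum (u ++ (i, true) :: v)) = ((n : ℤ) - esum (u ++ v)) + (-1) := by
    simp; ring
  have e2 : ((n : ℤ) - esum (u ++ (i, false) :: v)) = ((n : ℤ) - esum (u ++ v)) + 1 := by
    simp; ring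
  rw [e1, e2, _root_.zpow_add, _root_.zpow_add, _root_.zpow_neg_one, _root_.zpow_one]
  simp only [Units.val_mul]
  set p : R := ((s ^ ((n : ℤ) - esum (u ++ v)) : Rˣ) : R)
  set q : R := ((s⁻¹ : Rˣ) : R)
  set A := dt (s ^ 2) (u ++ (i, true) :: v)
  set B := dt (s ^ 2) (u ++ (i, false) :: v)
  set C := dt (s ^ 2) (u ++ v)
  linear_combination p * q * h + (p * s * B - p * s * C) * hs

lemma nab_unknot : nab s unknot = 1 := by
  have : dt (s ^ 2) ([] : Word 0) = 1 := by
    simp [dt, Matrix.det_unique, vecMulVec_apply]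
  simp [nab, unknot, this]

lemma nab_stab {n : ℕ} (u : Word n) (b : Bool) :
    nab s ⟨n + 1, emb u ++ [(Fin.last n, b)]⟩ = nab s ⟨n, u⟩ := by
  simp only [nab, dt_stab]
  cases b
  · have e1 : (((n + 1 : ℕ) : ℤ) - esum (emb u ++ [(Fin.last n, false)]))
        = ((n : ℤ) - esum u) + 2 := by
      push_cast; simp; ring
    rw [e1, _root_.zpow_add]
    simp only [xc, Bool.false_eq_true, if_false, Units.val_mul]
    have : ((s ^ (2 : ℤ) : Rˣ) : R) * (((s ^ 2)⁻¹ : Rˣ) : R) = 1 := by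
      rw [← Units.val_mul, ← Units.val_one]; congr 1
      rw [show (s ^ (2 : ℤ) : Rˣ) = s ^ 2 from zpow_ofNat s 2]; simp
    linear_combination ((s ^ ((n : ℤ) - esum u) : Rˣ) : R) * dt (s ^ 2) u * this
  · have e1 : (((n + 1 : ℕ) : ℤ) - esum (emb u ++ [(Fin.last n, true)]))
        = ((n : ℤ) - esum u) := by
      push_cast; simp
    rw [e1]
    simp [xc]

lemma nab_conj [IsDomain R] (hq : ∀ n, qn (s ^ 2) n ≠ 0) {n : ℕ} (u v : Word n) :
    nab s ⟨n, u ++ v⟩ = nab s ⟨n, v ++ u⟩ := by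
  have h := dc_comm (s ^ 2) u v
  rw [dc_eq, dc_eq] at h
  have h2 : dt (s ^ 2) (u ++ v) = dt (s ^ 2) (v ++ u) :=
    mul_left_cancel₀ (pow_ne_zero 2 (hq n)) h
  simp only [nab, h2, esum_append, add_comm]

lemma nab_move [IsDomain R] (hq : ∀ n, qn (s ^ 2) n ≠ 0) {x y : CBraid} (h : Move x y) :
    nab s x = nab s y := by
  cases h with
  | cancel u v i b =>
    have h1 : bm (s ^ 2) (u ++ (i, b) :: (i, !b) :: v) = bm (s ^ 2) (u ++ v) := by
      rw [bm_append, bm_cons, bm_cons, ← Matrix.mul_assoc (bl _ _), bl_cancel, Matrix.one_mul,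
        bm_append]
    have h2 : esum (u ++ (i, b) :: (i, !b) :: v) = esum (u ++ v) := by
      cases b <;> simp
    simp only [nab, dt, h1, h2]
  | comm u v i j b c h =>
    have h1 : bm (s ^ 2) (u ++ (i, b) :: (j, c) :: v) = bm (s ^ 2) (u ++ (j, c) :: (i, b) :: v) := by
      rw [bm_append, bm_cons, bm_cons, ← Matrix.mul_assoc (bl _ _), bl_comm _ h, bm_append,
        bm_cons, bm_cons, ← Matrix.mul_assoc (bl _ _)]
    have h2 : esum (u ++ (i, b) :: (j, c) :: v) = esum (u ++ (j, c) :: (i, b) :: v) := by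
      simp; ring
    simp only [nab, dt, h1, h2]
  | braid u v i j h =>
    have h1 : bm (s ^ 2) (u ++ (i, true) :: (j, true) :: (i, true) :: v)
        = bm (s ^ 2) (u ++ (j, true) :: (i, true) :: (j, true) :: v) := by
      rw [bm_append, bm_cons, bm_cons, bm_cons, ← Matrix.mul_assoc (bl _ _),
        ← Matrix.mul_assoc (bl _ _ * bl _ _), bl_braid _ h, bm_append, bm_cons, bm_cons, bm_cons,
        ← Matrix.mul_assoc (bl _ _), ← Matrix.mul_assoc (bl _ _ * bl _ _)]
    have h2 : esum (u ++ (i, true) :: (j, true) :: (i, true) :: v)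
        = esum (u ++ (j, true) :: (i, true) :: (j, true) :: v) := by
      simp
    simp only [nab, dt, h1, h2]
  | conj u v => exact nab_conj s hq u v
  | stab u b => exact (nab_stab s u b).symm

lemma nab_markov [IsDomain R] (hq : ∀ n, qn (s ^ 2) n ≠ 0) {x y : CBraid} (h : MarkovEq x y) :
    nab s x = nab s y := by
  induction h with
  | rel _ _ h => exact nab_move s hq h
  | refl _ => rfl
  | symm _ _ _ ih => exact ih.symm
  | trans _ _ _ _ _ ih1 ih2 => exact ih1.trans ih2

end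

end VassBraid
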