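import Pool.Agent.Helper86.Vass.Quad

namespace VassBraid

open Finset Function

lemma sum_inv_card {P : Type*} [Fintype P] [DecidableEq P] :
    ∑ D : Finset P, (1 : ℝ) / ((D.card : ℝ) + 1)
      ≤ 2 ^ (Fintype.card P + 1) / ((Fintype.card P : ℝ) + 1) := by
  set h := Fintype.card P with hh
  have h1 : ∑ D : Finset P, (1 : ℝ) / ((D.card : ℝ) + 1)
      = ∑ k ∈ range (h + 1), (h.choose k : ℝ) * (1 / ((k : ℝ) + 1)) := by
    have := sum_powerset_apply_card (fun k : ℕ => (1 : ℝ) / ((k : ℝ) + 1))
      (x := (univ : Finset P))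
    rw [card_univ, ← hh] at this
    rw [← powerset_univ, this]
    simp [nsmul_eq_mul]
  have h2 : ∀ k ∈ range (h + 1), (h.choose k : ℝ) * (1 / ((k : ℝ) + 1))
      = ((h + 1).choose (k + 1) : ℝ) / ((h : ℝ) + 1) := by
    intro k _
    have h3 := Nat.add_one_mul_choose_eq h k
    have h4 : ((h : ℝ) + 1) * (h.choose k : ℝ) = ((h + 1).choose (k + 1) : ℝ) * ((k : ℝ) + 1) := by
      exact_mod_cast h3
    field_simp
    linarith
  rw [h1, sum_congr rfl h2, ← sum_div]
  gcongr
  have h5 : ∑ k ∈ range (h + 2), ((h + 1).choose k : ℝ) = 2 ^ (h + 1) := by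
    have := Nat.sum_range_choose (h + 1)
    exact_mod_cast this
  rw [sum_range_succ'] at h5
  have h6 : (0 : ℝ) ≤ ((h + 1).choose 0 : ℝ) := by positivity
  linarith

lemma sum_bound {P : Type*} [Fintype P] [DecidableEq P] :
    ((∑ D : Finset P, (D.card).choose (D.card / 2) * 2 ^ (Fintype.card P - D.card) : ℕ) : ℝ)
      ≤ 4 ^ (Fintype.card P) * √(2 / ((Fintype.card P : ℝ) + 1)) := by
  set h := Fintype.card P with hh
  push_cast
  have h1 : ∀ D : Finset P, ((D.card).choose (D.card / 2) : ℝ) * 2 ^ (h - D.card)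
      ≤ 2 ^ h * (1 / √((D.card : ℝ) + 1)) := by
    intro D
    have hd : D.card ≤ h := by rw [hh]; exact card_le_univ D
    have := choose_half_le D.card
    calc ((D.card).choose (D.card / 2) : ℝ) * 2 ^ (h - D.card)
        ≤ (2 ^ D.card / √((D.card : ℝ) + 1)) * 2 ^ (h - D.card) := by gcongr
      _ = (2 ^ D.card * 2 ^ (h - D.card)) * (1 / √((D.card : ℝ) + 1)) := by ring
      _ = _ := by rw [← pow_add, Nat.add_sub_cancel' hd]
  have h2 : (∑ D : Finset P, 1 / √((D.card : ℝ) + 1)) ^ 2
      ≤ 2 ^ h * ∑ D : Finset P, (1 : ℝ) / ((D.card : ℝ) + 1) := by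
    have := sq_sum_le_card_mul_sum_sq (s := (univ : Finset (Finset P)))
      (f := fun D => 1 / √((D.card : ℝ) + 1))
    rw [card_univ, Fintype.card_finset, ← hh] at this
    push_cast at this
    refine this.trans (le_of_eq ?_)
    congr 1
    apply sum_congr rfl
    intro D _
    rw [div_pow, Real.sq_sqrt (by positivity), one_pow]
  have h3 : (∑ D : Finset P, 1 / √((D.card : ℝ) + 1))
      ≤ 2 ^ h * √(2 / ((h : ℝ) + 1)) := by
    apply Real.le_sqrt_of_sq_le at h2
    refine h2.trans ?_
    have h4 : (2 : ℝ) ^ h * √(2 / ((h : ℝ) + 1)) = √((2 ^ h) ^ 2 * (2 / ((h : ℝ) + 1))) := by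
      rw [Real.sqrt_mul (by positivity), Real.sqrt_sq (by positivity)]
    rw [h4]
    apply Real.sqrt_le_sqrt
    calc 2 ^ h * ∑ D : Finset P, (1 : ℝ) / ((D.card : ℝ) + 1)
        ≤ 2 ^ h * (2 ^ (h + 1) / ((h : ℝ) + 1)) := by
          gcongr
          exact sum_inv_card
      _ = _ := by rw [pow_succ]; ring
  calc ∑ D : Finset P, ((D.card).choose (D.card / 2) : ℝ) * 2 ^ (h - D.card)
      ≤ ∑ D : Finset P, 2 ^ h * (1 / √((D.card : ℝ) + 1)) := sum_le_sum fun D _ => h1 D
    _ = 2 ^ h * ∑ D : Finset P, 1 / √((D.card : ℝ) + 1) := by rw [← mul_sum]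
    _ ≤ 2 ^ h * (2 ^ h * √(2 / ((h : ℝ) + 1))) := by gcongr
    _ = 4 ^ h * √(2 / ((h : ℝ) + 1)) := by
      rw [← mul_assoc, ← mul_pow]; norm_num

section

variable {ι κ : Type*} [Fintype ι] [DecidableEq ι] [Fintype κ] [DecidableEq κ]

lemma update_comp_symm (e : κ ≃ ι) (x : κ → Bool) (i : κ) (b : Bool) :
    (update x i b) ∘ e.symm = update (x ∘ e.symm) (e i) b := by
  funext j
  by_cases hj : j = e i
  · subst hj; simp
  · have : e.symm j ≠ i := fun h => hj (by rw [← h]; simp)
    simp [update_of_ne hj, update_of_ne this]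

lemma Quad4.comp {F : (ι → Bool) → ℚ} (hF : Quad4 F) (e : κ ≃ ι) :
    Quad4 (fun x : κ → Bool => F (x ∘ e.symm)) := by
  intro x i j hij
  simp only [update_comp_symm]
  exact hF _ _ _ (e.injective.ne hij)

lemma bc_comp (F : (ι → Bool) → ℚ) (e : κ ≃ ι) (i : κ) :
    bc (fun x : κ → Bool => F (x ∘ e.symm)) i = bc F (e i) := by
  simp only [bc, update_comp_symm]
  rfl

lemma card_comp (F : (ι → Bool) → ℚ) (e : κ ≃ ι) (a : ℚ) :
    (univ.filter fun x : κ → Bool => F (x ∘ e.symm) = a).card
      = (univ.filter fun x : ι → Bool => F x = a).card := by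
  apply card_bij (fun x _ => x ∘ e.symm)
  · intro x hx; simpa using hx
  · intro x _ y _ h
    funext k
    have := congrFun h (e k)
    simpa using this
  · intro y hy
    refine ⟨y ∘ e, ?_, ?_⟩
    · have : (y ∘ e) ∘ e.symm = y := by funext k; simp
      simpa [this] using hy
    · funext k; simp

/-- The level sets of a quadratic function on the cube `{0,1}^q` all of whose mixed second
differences are equal to `4` have at most `√(8/q) 2^q` elements. -/
theorem quad_level [Nonempty ι] {F : (ι → Bool) → ℚ} (hF : Quad4 F) (a : ℚ) :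
    ((univ.filter fun x => F x = a).card : ℝ)
      ≤ √(8 / (Fintype.card ι : ℝ)) * 2 ^ (Fintype.card ι) := by
  set q := Fintype.card ι with hq
  have hq1 : 1 ≤ q := Fintype.card_pos
  set h := q / 2 with hh
  have hqr : (h + h) + (q - 2 * h) = q := by omega
  set e0 : ι ≃ Fin q := Fintype.equivFinOfCardEq hq.symm with he0
  set f : Fin q → ℚ := fun i => bc F (e0.symm i) with hf
  set σ := Tuple.sort f with hσ
  have hmono : Monotone (f ∘ σ) := Tuple.monotone_sort f
  by_cases hex : ∃ (i : ℕ) (hi : i < h), f (σ ⟨i, by omega⟩) = f (σ ⟨h + i, by omega⟩)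
  · -- Case 1
    obtain ⟨i, hi, hfi⟩ := hex
    set β := f (σ ⟨i, by omega⟩) with hβ
    set lo : Fin q := ⟨i, by omega⟩ with hlo
    set hi' : Fin q := ⟨h + i, by omega⟩ with hhi
    set R : Finset ι := (Finset.Icc lo hi').map (σ.trans e0.symm).toEmbedding with hR
    have hRc : R.card = h + 1 := by
      rw [hR, card_map, Fin.card_Icc]
      simp only [hlo, hhi]
      omega
    have hb : ∀ j ∈ R, bc F j = β := by
      intro j hj
      rw [hR, mem_map] at hj
      obtain ⟨k, hk, rfl⟩ := hj
      rw [mem_Icc] at hk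
      have h1 : f (σ lo) ≤ f (σ k) := hmono hk.1
      have h2 : f (σ k) ≤ f (σ hi') := hmono hk.2
      have h3 : f (σ k) = β := by
        apply le_antisymm
        · exact h2.trans (le_of_eq hfi.symm)
        · exact h1
      simpa [hf] using h3
    have hc := quad_case1 hF a β R hb
    have hc' : ((univ.filter fun x => F x = a).card : ℝ)
        ≤ (2 * ((h + 1).choose ((h + 1) / 2) : ℝ)) * 2 ^ (q - (h + 1)) := by
      rw [hRc] at hc
      exact_mod_cast hc
    refine hc'.trans ?_
    have h5 := choose_half_le (h + 1)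
    have h6 : h + 1 ≤ q := by omega
    calc (2 * ((h + 1).choose ((h + 1) / 2) : ℝ)) * 2 ^ (q - (h + 1))
        ≤ (2 * (2 ^ (h + 1) / √(((h + 1 : ℕ) : ℝ) + 1))) * 2 ^ (q - (h + 1)) := by gcongr
      _ = (2 / √(((h + 1 : ℕ) : ℝ) + 1)) * (2 ^ (h + 1) * 2 ^ (q - (h + 1))) := by ring
      _ = (2 / √(((h + 1 : ℕ) : ℝ) + 1)) * 2 ^ q := by
          rw [← pow_add, Nat.add_sub_cancel' h6]
      _ ≤ √(8 / (q : ℝ)) * 2 ^ q := by
          gcongr
          apply Real.le_sqrt_of_sq_le
          rw [div_pow, Real.sq_sqrt (by positivity), div_le_div_iff₀ (by positivity)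
            (by exact_mod_cast hq1)]
          have : q ≤ 2 * h + 1 := by omega
          have h7 : (q : ℝ) ≤ 2 * h + 1 := by exact_mod_cast this
          push_cast
          nlinarith
  · -- Case 2
    push Not at hex
    set e : (Fin h ⊕ Fin h) ⊕ Fin (q - 2 * h) ≃ ι :=
      ((((Equiv.sumCongr finSumFinEquiv (Equiv.refl _)).trans finSumFinEquiv).trans
        (finCongr hqr)).trans σ).trans e0.symm with he
    have he1 : ∀ t : Fin h, e (Sum.inl (Sum.inl t)) = e0.symm (σ ⟨t, by omega⟩) := by
      intro t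
      simp only [he, Equiv.trans_apply, Equiv.sumCongr_apply, Sum.map_inl,
        finSumFinEquiv_apply_left]
      congr 2
    have he2 : ∀ t : Fin h, e (Sum.inl (Sum.inr t)) = e0.symm (σ ⟨h + t, by omega⟩) := by
      intro t
      simp only [he, Equiv.trans_apply, Equiv.sumCongr_apply, Sum.map_inl,
        finSumFinEquiv_apply_left, finSumFinEquiv_apply_right]
      congr 2
    have hb : ∀ t : Fin h, bc (fun x : (Fin h ⊕ Fin h) ⊕ Fin (q - 2 * h) → Bool => F (x ∘ e.symm))
        (Sum.inl (Sum.inl t)) ≠ bc (fun x : (Fin h ⊕ Fin h) ⊕ Fin (q - 2 * h) → Bool =>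
          F (x ∘ e.symm)) (Sum.inl (Sum.inr t)) := by
      intro t
      rw [bc_comp, bc_comp, he1, he2]
      exact hex t t.2
    have hc := quad_case2 (hF.comp e) a hb
    rw [card_comp] at hc
    have hc' : ((univ.filter fun x => F x = a).card : ℝ)
        ≤ 2 ^ (q - 2 * h) * ((∑ D : Finset (Fin h), (D.card).choose (D.card / 2)
          * 2 ^ (Fintype.card (Fin h) - D.card) : ℕ) : ℝ) := by
      have : Fintype.card (Fin (q - 2 * h)) = q - 2 * h := by simp
      rw [this] at hc
      exact_mod_cast hc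
    refine hc'.trans ?_
    have h5 := sum_bound (P := Fin h)
    rw [Fintype.card_fin] at h5 ⊢
    have h8 : (2 : ℝ) ^ (q - 2 * h) * 4 ^ h = 2 ^ q := by
      rw [show (4 : ℝ) = 2 ^ 2 by norm_num, ← pow_mul, ← pow_add]
      congr 1; omega
    calc (2 : ℝ) ^ (q - 2 * h) * ((∑ D : Finset (Fin h), (D.card).choose (D.card / 2)
          * 2 ^ (h - D.card) : ℕ) : ℝ)
        ≤ 2 ^ (q - 2 * h) * (4 ^ h * √(2 / ((h : ℝ) + 1))) := by gcongr
      _ = √(2 / ((h : ℝ) + 1)) * 2 ^ q := by rw [← h8]; ring
      _ ≤ √(8 / (q : ℝ)) * 2 ^ q := by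
          gcongr ?_ * _
          apply Real.sqrt_le_sqrt
          rw [div_le_div_iff₀ (by positivity) (by exact_mod_cast hq1)]
          have : q ≤ 2 * h + 1 := by omega
          have h7 : (q : ℝ) ≤ 2 * h + 1 := by exact_mod_cast this
          nlinarith

/-- The same for functions on a bigger cube which have mixed second differences `4` with respect
to the coordinates in a set `J`. -/
theorem quad_level_on {G : (ι → Bool) → ℚ} (J : Finset ι) (hJ : J.Nonempty)
    (hG : ∀ x, ∀ i ∈ J, ∀ j ∈ J, i ≠ j →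
      G (update (update x i true) j true) - G (update (update x i true) j false)
        - G (update (update x i false) j true) + G (update (update x i false) j false) = 4)
    (a : ℚ) :
    ((univ.filter fun x => G x = a).card : ℝ)
      ≤ √(8 / (J.card : ℝ)) * 2 ^ (Fintype.card ι) := by
  have hcodom : (univ : Finset ({i // i ∉ J} → Bool)).card = 2 ^ (Fintype.card ι - J.card) := by
    rw [card_univ, Fintype.card_fun, Fintype.card_bool]
    congr 1
    rw [Fintype.card_subtype_compl]
    simp
  have hJc : J.card ≤ Fintype.card ι := card_le_univ J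
  have : Nonempty {i // i ∈ J} := ⟨⟨hJ.choose, hJ.choose_spec⟩⟩
  set A := univ.filter fun x => G x = a with hA
  have hfib : ∀ y : {i // i ∉ J} → Bool,
      (({x ∈ A | (fun (i : {i // i ∉ J}) => x i.1) = y}).card : ℝ)
        ≤ √(8 / (J.card : ℝ)) * 2 ^ (J.card) := by
    intro y
    let g : ({i // i ∈ J} → Bool) → (ι → Bool) := fun z i =>
      if hi : i ∈ J then z ⟨i, hi⟩ else y ⟨i, hi⟩
    have hgu : ∀ z (i : {i // i ∈ J}) b, g (update z i b) = update (g z) i.1 b := by
      intro z i b
      funext j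
      by_cases hj : j = i.1
      · subst hj; simp [g]
      · rw [update_of_ne hj]
        by_cases hjD : j ∈ J
        · have : (⟨j, hjD⟩ : {i // i ∈ J}) ≠ i := fun h' => hj (by rw [← h'])
          simp [g, hjD, update_of_ne this]
        · simp [g, hjD]
    have hQ : Quad4 (fun z => G (g z)) := by
      intro z i j hij
      simp only [hgu]
      exact hG _ _ i.2 _ j.2 (fun h => hij (Subtype.ext h))
    have hmain := quad_level hQ a
    have hcJ : Fintype.card {i // i ∈ J} = J.card := by simp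
    rw [hcJ] at hmain
    refine le_trans ?_ hmain
    have : ({x ∈ A | (fun (i : {i // i ∉ J}) => x i.1) = y}).card
        ≤ (univ.filter fun z => G (g z) = a).card := by
      apply card_le_card_of_injOn (fun x i => x i.1)
      · intro x hx
        rw [mem_coe, mem_filter, hA, mem_filter] at hx
        have hgx : g (fun i => x i.1) = x := by
          funext j
          by_cases hjD : j ∈ J
          · simp [g, hjD]
          · have := congrFun hx.2 ⟨j, hjD⟩
            simp only at this
            simp [g, hjD, this]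
        rw [mem_coe, mem_filter]
        refine ⟨mem_univ _, ?_⟩
        rw [hgx]; exact hx.1.2
      · intro x hx x' hx' hxx
        rw [mem_coe, mem_filter] at hx hx'
        funext j
        by_cases hjD : j ∈ J
        · exact congrFun hxx ⟨j, hjD⟩
        · have h1 := congrFun hx.2 ⟨j, hjD⟩
          have h2 := congrFun hx'.2 ⟨j, hjD⟩
          simp only at h1 h2
          rw [h1, h2]
    exact_mod_cast this
  have hsum : A.card = ∑ y : {i // i ∉ J} → Bool,
      ({x ∈ A | (fun (i : {i // i ∉ J}) => x i.1) = y}).card :=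
    card_eq_sum_card_fiberwise (fun _ _ => mem_univ _)
  rw [hsum]
  push_cast
  calc ∑ y : {i // i ∉ J} → Bool, (({x ∈ A | (fun (i : {i // i ∉ J}) => x i.1) = y}).card : ℝ)
      ≤ ∑ _y : {i // i ∉ J} → Bool, √(8 / (J.card : ℝ)) * 2 ^ (J.card) :=
        sum_le_sum fun y _ => hfib y
    _ = 2 ^ (Fintype.card ι - J.card) * (√(8 / (J.card : ℝ)) * 2 ^ (J.card)) := by
        rw [sum_const, hcodom, nsmul_eq_mul]; push_cast; rfl
    _ = √(8 / (J.card : ℝ)) * (2 ^ (Fintype.card ι - J.card) * 2 ^ (J.card)) := by ring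
    _ = √(8 / (J.card : ℝ)) * 2 ^ (Fintype.card ι) := by
        rw [← pow_add, Nat.sub_add_cancel hJc]

end

end VassBraid
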