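import Mathlib

/-!
# Knots as closed braids, Markov equivalence, Vassiliev invariants

By the theorems of Alexander and Markov, oriented links in the 3-sphere up to isotopy are the same
thing as braid words on arbitrarily many strands up to Markov equivalence.
Singular links are closures of singular braids (Birman).
-/

namespace VassBraid

/-- A braid word on `n + 1` strands.  The letter `(i, true)` is the standard generator
`σ_i`, the letter `(i, false)` is its inverse. -/
abbrev Word (n : ℕ) := List (Fin n × Bool)

/-- A singular braid word (or a braid word some of whose crossings are still free) on `n + 1`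
strands: `(i, some true)` is `σ_i`, `(i, some false)` is `σ_i⁻¹`, and `(i, none)` is a transversal
double point of the strands in positions `i`, `i+1`. -/
abbrev SWord (n : ℕ) := List (Fin n × Option Bool)

/-- The transposition of the positions `i` and `i + 1`. -/
def tr {n : ℕ} (i : Fin n) : Equiv.Perm (Fin (n + 1)) := Equiv.swap i.castSucc i.succ

/-- The permutation of the strands defined by a sequence of crossings. -/
def perm {n : ℕ} {α : Type*} (w : List (Fin n × α)) : Equiv.Perm (Fin (n + 1)) :=
  (w.map fun l => tr l.1).prod

/-- The closure of the braid (or singular braid) has exactly one component. -/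
def OneComp {n : ℕ} {α : Type*} (w : List (Fin n × α)) : Prop :=
  ∀ a b : Fin (n + 1), (perm w).SameCycle a b

/-- A braid word on some number of strands; it stands for the closed braid. -/
abbrev CBraid := Σ n : ℕ, Word n

/-- The closed braid is a knot. -/
def IsKnot (x : CBraid) : Prop := OneComp x.2

/-- The elementary moves: free cancellation, the two braid relations, conjugation (in the form of
cyclic rotation of the word) and stabilisation. -/
inductive Move : CBraid → CBraid → Prop
  | cancel {n : ℕ} (u v : Word n) (i : Fin n) (b : Bool) :
      Move ⟨n, u ++ (i, b) :: (i, !b) :: v⟩ ⟨n, u ++ v⟩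
  | comm {n : ℕ} (u v : Word n) (i j : Fin n) (b c : Bool) (h : (i : ℕ) + 2 ≤ (j : ℕ)) :
      Move ⟨n, u ++ (i, b) :: (j, c) :: v⟩ ⟨n, u ++ (j, c) :: (i, b) :: v⟩
  | braid {n : ℕ} (u v : Word n) (i j : Fin n) (h : (i : ℕ) + 1 = (j : ℕ)) :
      Move ⟨n, u ++ (i, true) :: (j, true) :: (i, true) :: v⟩
        ⟨n, u ++ (j, true) :: (i, true) :: (j, true) :: v⟩
  | conj {n : ℕ} (u v : Word n) : Move ⟨n, u ++ v⟩ ⟨n, v ++ u⟩
  | stab {n : ℕ} (u : Word n) (b : Bool) :
      Move ⟨n, u⟩ ⟨n + 1, u.map (fun l => (l.1.castSucc, l.2)) ++ [(Fin.last n, b)]⟩

/-- Markov equivalence. -/
def MarkovEq : CBraid → CBraid → Prop := Relation.EqvGen Move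

/-- The unknot: the closure of the braid with one strand. -/
def unknot : CBraid := ⟨0, []⟩

/-- A knot invariant with values in `A` (the values on closed braids with several components are
irrelevant). -/
def IsKnotInvariant {A : Type*} (f : CBraid → A) : Prop :=
  ∀ x y, IsKnot x → IsKnot y → MarkovEq x y → f x = f y

/-- The number of double points of a singular braid word. -/
def doublePoints {n : ℕ} (s : SWord n) : ℕ := s.countP fun l => l.2.isNone

/-- The Vassiliev extension of `f` to singular closed braids: every double point is replaced by
the difference of its positive and its negative resolution.  (`u` is the part of the word which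
has already been read.) -/
def vExt {A : Type*} [Sub A] {n : ℕ} (f : CBraid → A) : Word n → SWord n → A
  | u, [] => f ⟨n, u⟩
  | u, (i, some b) :: s => vExt f (u ++ [(i, b)]) s
  | u, (i, none) :: s => vExt f (u ++ [(i, true)]) s - vExt f (u ++ [(i, false)]) s

/-- `f` is a Vassiliev (finite type) knot invariant of degree at most `d`: a knot invariant whose
extension vanishes on all singular knots with more than `d` double points. -/
def IsVassiliev {A : Type*} [Sub A] [Zero A] (d : ℕ) (f : CBraid → A) : Prop :=
  IsKnotInvariant f ∧
    ∀ (n : ℕ) (s : SWord n), OneComp s → d < doublePoints s → vExt f [] s = 0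

/-- The two closed braids have the same rational Vassiliev invariants of degree at most `d`. -/
def SameUpTo (d : ℕ) (x y : CBraid) : Prop :=
  ∀ f : CBraid → ℚ, IsVassiliev d f → f x = f y

/-- The two closed braids have the same rational Vassiliev invariants of all degrees.  For knots
this says that their Kontsevich invariants are equal. -/
def SameVassiliev (x y : CBraid) : Prop := ∀ d, SameUpTo d x y

/-- Resolve the double points of `s` from left to right with the signs in the list `bs`
(double points for which no sign is left are resolved positively). -/
def fill {n : ℕ} : SWord n → List Bool → Word n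
  | [], _ => []
  | (i, some b) :: s, bs => (i, b) :: fill s bs
  | (i, none) :: s, b :: bs => (i, b) :: fill s bs
  | (i, none) :: s, [] => (i, true) :: fill s []

end VassBraid
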