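import Pool.Agent.Helper86.Vass.Burau

namespace VassBraid

open Matrix

section Det

variable {R : Type*} [CommRing R]

lemma det_sub_smul_vecMulVec {m : Type*} [Fintype m] [DecidableEq m] (Y : Matrix m m R)
    (a b : m → R) (x : R) :
    (Y - x • vecMulVec a b).det = (1 - x) * Y.det + x * (Y - vecMulVec a b).det := by
  classical
  have key : ∀ x : R, (Y - x • vecMulVec a b).det
      = (Matrix.updateCol (fromBlocks Y (0 : Matrix m Unit R) (replicateRow Unit b) 0) (Sum.inr ())
          (Sum.elim (x • a) 1)).det := by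
    intro x
    have h1 : Matrix.updateCol (fromBlocks Y (0 : Matrix m Unit R) (replicateRow Unit b) 0)
        (Sum.inr ()) (Sum.elim (x • a) 1)
        = fromBlocks Y (replicateCol Unit (x • a)) (replicateRow Unit b) 1 := by
      ext i j
      rcases i with i | i <;> rcases j with j | j <;> simp [updateCol_apply]
    rw [h1, det_fromBlocks_one₂₂]
    congr 1
    ext i j
    simp [vecMulVec_apply, Matrix.mul_apply]
  have h0 : Y.det = (Matrix.updateCol (fromBlocks Y (0 : Matrix m Unit R) (replicateRow Unit b) 0)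
      (Sum.inr ()) (Sum.elim ((0 : R) • a) 1)).det := by
    rw [← key 0]; simp
  have h1 : (Y - vecMulVec a b).det = (Matrix.updateCol (fromBlocks Y (0 : Matrix m Unit R)
      (replicateRow Unit b) 0) (Sum.inr ()) (Sum.elim ((1 : R) • a) 1)).det := by
    rw [← key 1]; simp
  rw [key x, h0, h1, ← det_updateCol_smul, ← det_updateCol_smul,
    ← det_updateCol_add]
  congr 2
  ext i
  rcases i with i | i <;> simp

variable (t : Rˣ)

/-- The Alexander polynomial of the closed braid, up to a power of `t` (a principal minor of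
`1 - Burau`). -/
def dt {n : ℕ} (w : Word n) : R :=
  (1 - bm t w + vecMulVec (Pi.single 0 1) (Pi.single 0 1)).det

lemma dt_letter {n : ℕ} (u v : Word n) (i : Fin n) (b : Bool) :
    dt t (u ++ (i, b) :: v) = (1 - xc t b) * dt t (u ++ v)
      + xc t b * (1 - bm t (u ++ v) + vecMulVec (Pi.single 0 1) (Pi.single 0 1)
        - vecMulVec (bm t u *ᵥ cv t i) (rv R i ᵥ* bm t v)).det := by
  unfold dt
  rw [← det_sub_smul_vecMulVec]
  congr 1
  rw [bm_append, bm_cons, bm_append, bl]
  have : bm t u * ((1 + xc t (i, b).2 • nm t (i, b).1) * bm t v)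
      = bm t u * bm t v + xc t b • vecMulVec (bm t u *ᵥ cv t i) (rv R i ᵥ* bm t v) := by
    rw [add_mul, mul_add, one_mul, smul_mul_assoc, mul_smul_comm, nm, ← mul_vecMulVec,
      ← vecMulVec_mul]
  rw [this]
  abel

lemma dt_skein {n : ℕ} (u v : Word n) (i : Fin n) :
    dt t (u ++ (i, true) :: v) - t * dt t (u ++ (i, false) :: v) = (1 - t) * dt t (u ++ v) := by
  rw [dt_letter, dt_letter]
  have h : (t : R) * ((t⁻¹ : Rˣ) : R) = 1 := by simp
  simp only [xc, if_true]
  simp only [Bool.false_eq_true, if_false]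
  linear_combination (dt t (u ++ v) - (1 - bm t (u ++ v) + vecMulVec (Pi.single 0 1) (Pi.single 0 1)
        - vecMulVec (bm t u *ᵥ cv t i) (rv R i ᵥ* bm t v)).det) * h

end Det

end VassBraid
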