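import Mathlib

/-!
# Littlewood-Offord type counting
-/

namespace VassBraid

open Finset Function

/-- central binomial coefficient bound -/
lemma centralBinom_sq (k : ℕ) : Nat.centralBinom k ^ 2 * (2 * k + 1) ≤ 16 ^ k := by
  induction k with
  | zero => simp
  | succ k ih =>
    have h := Nat.succ_mul_centralBinom_succ k
    have h1 : (k + 1) ^ 2 * (Nat.centralBinom (k + 1) ^ 2 * (2 * (k + 1) + 1))
        ≤ (k + 1) ^ 2 * 16 ^ (k + 1) := by
      calc (k + 1) ^ 2 * (Nat.centralBinom (k + 1) ^ 2 * (2 * (k + 1) + 1))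
          = ((k + 1) * Nat.centralBinom (k + 1)) ^ 2 * (2 * k + 3) := by ring
        _ = (Nat.centralBinom k ^ 2 * (2 * k + 1)) * (4 * ((2 * k + 1) * (2 * k + 3))) := by
            rw [h]; ring
        _ ≤ 16 ^ k * (4 * (4 * (k + 1) ^ 2)) := by
            apply Nat.mul_le_mul ih
            nlinarith
        _ = (k + 1) ^ 2 * 16 ^ (k + 1) := by ring
    exact Nat.le_of_mul_le_mul_left h1 (by positivity)

lemma choose_half_sq (d : ℕ) : (d.choose (d / 2)) ^ 2 * (d + 1) ≤ 4 ^ d := by
  rcases Nat.even_or_odd' d with ⟨k, rfl | rfl⟩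
  · have := centralBinom_sq k
    rw [Nat.centralBinom] at this
    rw [Nat.mul_div_cancel_left k (by norm_num), pow_mul]
    simpa using this
  · have h1 : (2 * k + 1) / 2 = k := by omega
    rw [h1]
    have h2 : 2 * (2 * k + 1).choose k = Nat.centralBinom (k + 1) := by
      rw [Nat.centralBinom, show 2 * (k + 1) = (2 * k + 1) + 1 by ring, Nat.choose_succ_succ,
        two_mul]
      congr 1
      rw [← Nat.choose_symm_half]
    have h3 := centralBinom_sq (k + 1)
    rw [← h2] at h3
    have h4 : 4 * ((2 * k + 1).choose k ^ 2 * (2 * k + 1 + 1)) ≤ 4 * 4 ^ (2 * k + 1) := by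
      calc 4 * ((2 * k + 1).choose k ^ 2 * (2 * k + 1 + 1))
          ≤ (2 * (2 * k + 1).choose k) ^ 2 * (2 * (k + 1) + 1) := by
            have : (2 * (2 * k + 1).choose k) ^ 2 * (2 * (k + 1) + 1)
              = 4 * ((2 * k + 1).choose k ^ 2 * (2 * k + 1 + 2)) := by ring
            rw [this]
            gcongr <;> norm_num
        _ ≤ 16 ^ (k + 1) := h3
        _ = 4 * 4 ^ (2 * k + 1) := by
          rw [show (16 : ℕ) = 4 ^ 2 by norm_num, ← pow_mul, ← pow_succ']
          congr 1
    exact Nat.le_of_mul_le_mul_left h4 (by norm_num)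

lemma choose_half_le (d : ℕ) : (d.choose (d / 2) : ℝ) ≤ 2 ^ d / √(d + 1) := by
  have h := choose_half_sq d
  have h' : ((d.choose (d / 2) : ℝ)) ^ 2 * (d + 1) ≤ 4 ^ d := by exact_mod_cast h
  have hpos : (0 : ℝ) < √(d + 1) := Real.sqrt_pos.mpr (by positivity)
  rw [le_div_iff₀ hpos]
  have hs : √((d : ℝ) + 1) ^ 2 = d + 1 := Real.sq_sqrt (by positivity)
  have h4 : ((4 : ℝ)) ^ d = (2 ^ d) ^ 2 := by
    rw [← pow_mul, mul_comm, pow_mul]; norm_num
  nlinarith [abs_le_of_sq_le_sq (a := (d.choose (d / 2) : ℝ) * √(d + 1)) (b := (2 : ℝ) ^ d)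
    (by rw [mul_pow, hs, ← h4]; exact h') (by positivity), le_abs_self ((d.choose (d / 2) : ℝ) * √(d + 1))]

section LO

variable {ι : Type*} [Fintype ι] [DecidableEq ι]

/-- Littlewood-Offord in difference form: if `H` is strictly monotone (in a direction `s i`) in
the coordinates `i ∈ D`, then its level sets are small. -/
theorem lo_count (H : (ι → Bool) → ℚ) (a : ℚ) (D : Finset ι) (s : ι → Bool)
    (h : ∀ i ∈ D, ∀ x, H (update x i (!s i)) < H (update x i (s i))) :
    (univ.filter fun x => H x = a).card
      ≤ (D.card).choose (D.card / 2) * 2 ^ (Fintype.card ι - D.card) := by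
  have hcodom : (univ : Finset ({i // i ∉ D} → Bool)).card = 2 ^ (Fintype.card ι - D.card) := by
    rw [card_univ, Fintype.card_fun, Fintype.card_bool]
    congr 1
    rw [Fintype.card_subtype_compl]
    simp
  rw [← hcodom]
  apply Finset.card_le_mul_card_image_of_maps_to
    (f := fun (x : ι → Bool) (i : {i // i ∉ D}) => x i.1)
  · intro x _; exact mem_univ _
  · intro y _
    set A := ({x ∈ univ.filter fun x => H x = a | (fun (i : {i // i ∉ D}) => x i.1) = y}) with hA
    -- the function attached to a subset of `D`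
    let g : Finset {i // i ∈ D} → (ι → Bool) := fun T i =>
      if hi : i ∈ D then (if (⟨i, hi⟩ : {i // i ∈ D}) ∈ T then s i else !s i) else y ⟨i, hi⟩
    have hg : ∀ (T : Finset {i // i ∈ D}) (i : {i // i ∈ D}), i ∉ T →
        g (insert i T) = update (g T) i.1 (s i.1) ∧ g T = update (g T) i.1 (!s i.1) := by
      intro T i hi
      constructor
      · funext j
        by_cases hj : j = i.1
        · subst hj; simp [g]
        · rw [update_of_ne hj]
          by_cases hjD : j ∈ D
          · have : (⟨j, hjD⟩ : {i // i ∈ D}) ≠ i := fun h' => hj (by rw [← h'])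
            simp [g, hjD, mem_insert, this]
          · simp [g, hjD]
      · funext j
        by_cases hj : j = i.1
        · subst hj
          simp [g, hi]
        · rw [update_of_ne hj]
    have hmono : StrictMono fun T => H (g T) := by
      rw [Finset.strictMono_iff_forall_lt_insert]
      intro T i hi
      obtain ⟨h1, h2⟩ := hg T i hi
      show H (g T) < H (g (insert i T))
      rw [h1]
      conv_lhs => rw [h2]
      exact h i.1 i.2 _
    let τ : (ι → Bool) → Finset {i // i ∈ D} := fun x => univ.filter fun i => x i.1 = s i.1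
    have hgτ : ∀ x ∈ A, g (τ x) = x := by
      intro x hx
      rw [hA, mem_filter] at hx
      funext j
      by_cases hjD : j ∈ D
      · by_cases hxs : x j = s j
        · simp [g, τ, hjD, hxs]
        · have : x j = !s j := by
            cases hx1 : x j <;> cases hs1 : s j <;> simp_all
          simp [g, τ, hjD, this]
      · have := congrFun hx.2 ⟨j, hjD⟩
        simp only at this
        simp [g, hjD, this]
    have hinj : Set.InjOn τ A := by
      intro x hx x' hx' hxx
      rw [← hgτ x hx, hxx, hgτ x' hx']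
    rw [← card_image_of_injOn hinj]
    have hanti : IsAntichain (· ⊆ ·) ((A.image τ : Finset (Finset {i // i ∈ D})) :
        Set (Finset {i // i ∈ D})) := by
      intro T hT T' hT' hne hsub
      rw [mem_coe, mem_image] at hT hT'
      obtain ⟨x, hx, rfl⟩ := hT
      obtain ⟨x', hx', rfl⟩ := hT'
      have hlt : τ x < τ x' := lt_of_le_of_ne hsub hne
      have := hmono hlt
      simp only at this
      rw [hgτ x hx, hgτ x' hx'] at this
      rw [hA, mem_filter, mem_filter] at hx hx'
      rw [hx.1.2, hx'.1.2] at this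
      exact lt_irrefl _ this
    have := hanti.sperner
    simpa using this

end LO

end VassBraid
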