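import Pool.Agent.Helper86.Vass.Det

namespace VassBraid

open Matrix

section ConjInv

variable {R : Type*} [CommRing R] (t : Rˣ)

/-- left fixed vector of the Burau matrices -/
def lv (n : ℕ) : Fin (n + 1) → R := fun k => (t : R) ^ (k : ℕ)

lemma bl_mulVec_one {n : ℕ} (l : Fin n × Bool) : bl t l *ᵥ (1 : Fin (n + 1) → R) = 1 := by
  rw [bl, add_mulVec, one_mulVec, smul_mulVec, nm, vecMulVec_mulVec, rv_dot]
  simp

lemma bm_mulVec_one {n : ℕ} (w : Word n) : bm t w *ᵥ (1 : Fin (n + 1) → R) = 1 := by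
  induction w with
  | nil => simp
  | cons l w ih => rw [bm_cons, ← mulVec_mulVec, ih, bl_mulVec_one]

lemma lv_vecMul_bl {n : ℕ} (l : Fin n × Bool) : lv t n ᵥ* bl t l = lv t n := by
  rw [bl, vecMul_add, vecMul_one, vecMul_smul, nm, vecMul_vecMulVec, dot_cv]
  have : lv t n l.1.succ - lv t n l.1.castSucc * t = 0 := by
    simp [lv, pow_succ]
  rw [this]; simp

lemma lv_vecMul_bm {n : ℕ} (w : Word n) : lv t n ᵥ* bm t w = lv t n := by
  induction w with
  | nil => simp
  | cons l w ih => rw [bm_cons, ← vecMul_vecMul, lv_vecMul_bl, ih]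

/-- the conjugation invariant version of `dt` -/
def dc {n : ℕ} (w : Word n) : R := (1 - bm t w + vecMulVec 1 (lv t n)).det

/-- `1 + t + ... + t^n` -/
def qn (n : ℕ) : R := ∑ k : Fin (n + 1), (t : R) ^ (k : ℕ)

lemma det_one_add_vecMulVec {m : Type*} [Fintype m] [DecidableEq m] (u v : m → R) :
    (1 + vecMulVec u v).det = 1 + v ⬝ᵥ u := by
  rw [vecMulVec_eq Unit, det_one_add_replicateCol_mul_replicateRow]

lemma dc_eq {n : ℕ} (w : Word n) : dc t w = qn t n ^ 2 * dt t w := by
  set X : Matrix (Fin (n + 1)) (Fin (n + 1)) R := 1 - bm t w with hX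
  have hX1 : X *ᵥ (1 : Fin (n + 1) → R) = 0 := by
    rw [hX, sub_mulVec, one_mulVec, bm_mulVec_one, sub_self]
  have hX2 : lv t n ᵥ* X = 0 := by
    rw [hX, vecMul_sub, vecMul_one, lv_vecMul_bm, sub_self]
  set e : Fin (n + 1) → R := Pi.single 0 1 with he
  have hle : lv t n ⬝ᵥ e = 1 := by simp [he, lv]
  have hee : e ⬝ᵥ e = 1 := by simp [he]
  have he1 : e ⬝ᵥ (1 : Fin (n + 1) → R) = 1 := by simp [he]
  have h1 : (1 + vecMulVec (1 - e) (lv t n)) * (X + vecMulVec e e) = X + vecMulVec 1 e := by
    rw [add_mul, one_mul, vecMulVec_mul, vecMul_add, hX2, vecMul_vecMulVec, hle, zero_add, one_smul,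
      sub_vecMulVec]
    abel
  have h2 : (X + vecMulVec 1 e) * (1 + vecMulVec 1 (lv t n - e)) = X + vecMulVec 1 (lv t n) := by
    rw [mul_add, mul_one, mul_vecMulVec, add_mulVec, hX1, vecMulVec_mulVec, he1, vecMulVec_sub]
    simp [vecMulVec_sub]
  have hd1 : (1 + vecMulVec (1 - e) (lv t n)).det = qn t n := by
    rw [det_one_add_vecMulVec, dotProduct_sub, hle]
    simp [qn, lv, dotProduct]
  have hd2 : (1 + vecMulVec 1 (lv t n - e)).det = qn t n := by
    rw [det_one_add_vecMulVec, sub_dotProduct, he1]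
    simp [qn, lv, dotProduct]
  rw [dc, dt, ← hX, ← h2, det_mul, ← h1, det_mul, hd1, hd2]
  ring

lemma dc_comm {n : ℕ} (u v : Word n) : dc t (u ++ v) = dc t (v ++ u) := by
  -- conjugation by the matrix of `u`, which is invertible
  have hu : IsUnit (bm t u) := by
    induction u with
    | nil => simp
    | cons l u ih =>
      rw [bm_cons]
      refine IsUnit.mul ?_ ih
      obtain ⟨i, b⟩ := l
      refine ⟨⟨bl t (i, b), bl t (i, !b), bl_cancel t i b, ?_⟩, rfl⟩
      have := bl_cancel t i (!b)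
      rwa [Bool.not_not] at this
  have h1 : bm t u * (1 - bm t v * bm t u + vecMulVec 1 (lv t n))
      = (1 - bm t u * bm t v + vecMulVec 1 (lv t n)) * bm t u := by
    rw [mul_add, mul_sub, add_mul, sub_mul, mul_vecMulVec, bm_mulVec_one, vecMulVec_mul,
      lv_vecMul_bm, mul_one, one_mul, Matrix.mul_assoc]
  have h2 := congrArg Matrix.det h1
  rw [det_mul, det_mul, mul_comm] at h2
  have hdu : IsUnit (bm t u).det := (Matrix.isUnit_iff_isUnit_det _).1 hu
  rw [dc, dc, bm_append, bm_append]
  exact (hdu.mul_right_cancel h2).symm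

end ConjInv

section Stab

variable {R : Type*} [CommRing R] (t : Rˣ)

/-- the indexing of the `n + 2` strands by the first `n + 1` and the last one -/
def se (n : ℕ) : Fin (n + 1) ⊕ Fin 1 ≃ Fin (n + 1 + 1) := finSumFinEquiv

lemma se_inl {n : ℕ} (k : Fin (n + 1)) : se n (Sum.inl k) = k.castSucc := rfl

lemma se_inr {n : ℕ} (k : Fin 1) : se n (Sum.inr k) = Fin.last (n + 1) := by
  have : k = 0 := Subsingleton.elim _ _
  subst this; rfl

@[simp] lemma se_symm_castSucc {n : ℕ} (k : Fin (n + 1)) : (se n).symm k.castSucc = Sum.inl k := by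
  rw [← se_inl, Equiv.symm_apply_apply]

@[simp] lemma se_symm_last {n : ℕ} : (se n).symm (Fin.last (n + 1)) = Sum.inr 0 := by
  rw [← se_inr 0, Equiv.symm_apply_apply]

/-- block extension by one strand -/
def extM {n : ℕ} (B : Matrix (Fin (n + 1)) (Fin (n + 1)) R) :
    Matrix (Fin (n + 1 + 1)) (Fin (n + 1 + 1)) R :=
  (fromBlocks B 0 0 (1 : Matrix (Fin 1) (Fin 1) R)).submatrix (se n).symm (se n).symm

lemma extM_mul {n : ℕ} (A B : Matrix (Fin (n + 1)) (Fin (n + 1)) R) :
    extM (A * B) = extM A * extM B := by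
  rw [extM, extM, extM, submatrix_mul_equiv, fromBlocks_multiply]
  simp

lemma extM_one {n : ℕ} : extM (1 : Matrix (Fin (n + 1)) (Fin (n + 1)) R) = 1 := by
  rw [extM, fromBlocks_one, submatrix_one_equiv]

@[simp] lemma extM_cc {n : ℕ} (B : Matrix (Fin (n + 1)) (Fin (n + 1)) R) (i j : Fin (n + 1)) :
    extM B i.castSucc j.castSucc = B i j := by simp [extM]

@[simp] lemma extM_cl {n : ℕ} (B : Matrix (Fin (n + 1)) (Fin (n + 1)) R) (i : Fin (n + 1)) :
    extM B i.castSucc (Fin.last _) = 0 := by simp [extM]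

@[simp] lemma extM_lc {n : ℕ} (B : Matrix (Fin (n + 1)) (Fin (n + 1)) R) (j : Fin (n + 1)) :
    extM B (Fin.last _) j.castSucc = 0 := by simp [extM]

@[simp] lemma extM_ll {n : ℕ} (B : Matrix (Fin (n + 1)) (Fin (n + 1)) R) :
    extM B (Fin.last _) (Fin.last _) = 1 := by simp [extM]

/-- stabilisation embedding of words -/
def emb {n : ℕ} (u : Word n) : Word (n + 1) := u.map fun l => (l.1.castSucc, l.2)

lemma bl_emb {n : ℕ} (i : Fin n) (b : Bool) : bl t (i.castSucc, b) = extM (bl t (i, b)) := by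
  have hs : ∀ k : Fin (n + 1), (k.castSucc = i.castSucc.succ) = (k = i.succ) := by
    intro k
    apply propext
    rw [Fin.succ_castSucc, Fin.castSucc_inj]
  have hl1 : (Fin.last (n + 1) = i.castSucc.succ) = False := by
    apply eq_false
    intro h; have := congrArg Fin.val h; simp at this; omega
  have hl2 : (Fin.last (n + 1) = i.castSucc.castSucc) = False := by
    apply eq_false
    intro h; have := congrArg Fin.val h; simp at this; omega
  ext a c
  refine Fin.lastCases ?_ (fun a' => ?_) a <;> refine Fin.lastCases ?_ (fun c' => ?_) c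
  · simp [bl, nm, vecMulVec_apply, cv, rv, Pi.single_apply, hl1, hl2]
  · simp [bl, nm, vecMulVec_apply, cv, rv, Pi.single_apply, hl1, hl2, Matrix.one_apply,
      (Fin.castSucc_lt_last c').ne']
  · simp [bl, nm, vecMulVec_apply, cv, rv, Pi.single_apply, hl1, hl2, Matrix.one_apply,
      (Fin.castSucc_lt_last a').ne]
  · simp [bl, nm, vecMulVec_apply, cv, rv, Pi.single_apply, Matrix.one_apply, hs]

lemma bm_emb {n : ℕ} (u : Word n) : bm t (emb u) = extM (bm t u) := by
  induction u with
  | nil => rw [emb, List.map_nil, bm_nil, bm_nil, extM_one]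
  | cons l u ih =>
    have : emb (l :: u) = (l.1.castSucc, l.2) :: emb u := rfl
    rw [this, bm_cons, bm_cons, ih, bl_emb, extM_mul]

lemma dt_stab {n : ℕ} (u : Word n) (b : Bool) :
    dt t (emb u ++ [(Fin.last n, b)]) = xc t b * dt t u := by
  set B := bm t u with hB
  set x := xc t b with hx
  set Y : Matrix (Fin (n + 1)) (Fin (n + 1)) R :=
    1 - B + vecMulVec (Pi.single 0 1) (Pi.single 0 1) with hY
  set g : Fin (n + 1) → R := B *ᵥ Pi.single (Fin.last n) 1 with hg
  set r : Fin (n + 1) → R := Pi.single (Fin.last n) 1 with hr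
  have hM : (1 - bm t (emb u ++ [(Fin.last n, b)]) + vecMulVec (Pi.single 0 1) (Pi.single 0 1))
      = (fromBlocks (Y + (x * t) • vecMulVec g r) (replicateCol (Fin 1) (-(x * t) • g))
          (replicateRow (Fin 1) (-x • r)) (x • (1 : Matrix (Fin 1) (Fin 1) R))).submatrix
          (se n).symm (se n).symm := by
    have h1 : bm t (emb u ++ [(Fin.last n, b)])
        = extM B + x • vecMulVec (extM B *ᵥ cv t (Fin.last n)) (rv R (Fin.last n)) := by
      rw [bm_append, bm_emb, bm_cons, bm_nil, mul_one, bl, mul_add, mul_one, mul_smul_comm, nm,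
        mul_vecMulVec]
    rw [h1]
    have hlast : (Fin.last n).succ = Fin.last (n + 1) := rfl
    have hne : ∀ k : Fin (n + 1), (Fin.last (n + 1) = k.castSucc) = False := fun k =>
      eq_false (Fin.castSucc_lt_last k).ne'
    have hne' : ∀ k : Fin (n + 1), (k.castSucc = Fin.last (n + 1)) = False := fun k =>
      eq_false (Fin.castSucc_lt_last k).ne
    have hz : ∀ k : Fin (n + 1), (k.castSucc = 0) = (k = 0) := fun k => by
      apply propext
      rw [← Fin.castSucc_zero, Fin.castSucc_inj]
    have hga : ∀ k : Fin (n + 1), (extM B *ᵥ cv t (Fin.last n)) k.castSucc = - (t * g k) := by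
      intro k
      simp [cv, mulVec_sub, hg, hr, hlast, mul_comm]
    have hgl : (extM B *ᵥ cv t (Fin.last n)) (Fin.last _) = 1 := by
      simp [cv, mulVec_sub, hlast]
    have hrc : ∀ k : Fin (n + 1), rv R (Fin.last n) k.castSucc = r k := by
      intro k
      simp [rv, hr, hlast, Pi.single_apply, hne']
    have hrl : rv R (Fin.last n) (Fin.last _) = -1 := by
      simp [rv, hlast, Pi.single_apply, hne]
    ext a c
    refine Fin.lastCases ?_ (fun a' => ?_) a <;> refine Fin.lastCases ?_ (fun c' => ?_) c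
    · simp [vecMulVec_apply, hgl, hrl]
    · simp [vecMulVec_apply, hgl, hrc, hne, Matrix.one_apply]
    · simp [vecMulVec_apply, hga, hrl, hne', Matrix.one_apply]
      ring
    · simp [vecMulVec_apply, hga, hrc, hY, Pi.single_apply, hz, Matrix.one_apply]
      ring
  have hdet : (fromBlocks (Y + (x * t) • vecMulVec g r) (replicateCol (Fin 1) (-(x * t) • g))
          (replicateRow (Fin 1) (-x • r)) (x • (1 : Matrix (Fin 1) (Fin 1) R))).det = x * Y.det := by
    have h2 : fromBlocks (Y + (x * t) • vecMulVec g r) (replicateCol (Fin 1) (-(x * t) • g))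
          (replicateRow (Fin 1) (-x • r)) (x • (1 : Matrix (Fin 1) (Fin 1) R))
          * fromBlocks (1 : Matrix (Fin (n + 1)) (Fin (n + 1)) R) 0 (replicateRow (Fin 1) r) 1
        = fromBlocks Y (replicateCol (Fin 1) (-(x * t) • g)) 0
            (x • (1 : Matrix (Fin 1) (Fin 1) R)) := by
      rw [fromBlocks_multiply]
      congr 1
      · ext i j
        simp [vecMulVec_apply, Matrix.mul_apply]
        ring
      · simp
      · ext i j
        simp [Matrix.mul_apply]
      · simp
    have h3 := congrArg Matrix.det h2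
    rw [det_mul, det_fromBlocks_zero₁₂, det_fromBlocks_zero₂₁, det_one, det_one, mul_one,
      mul_one] at h3
    rw [h3]
    simp [mul_comm]
  rw [dt, hM, det_submatrix_equiv_self, hdet, dt]

end Stab

end VassBraid
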