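import Pool.Agent.Helper86.Vass.LO

/-!
# Level sets of quadratic functions on the cube all of whose mixed second differences are `4`
-/

namespace VassBraid

open Finset Function

section Quad

variable {ι : Type*} [DecidableEq ι]

/-- all mixed second differences are equal to `4` -/
def Quad4 (F : (ι → Bool) → ℚ) : Prop := ∀ x i j, i ≠ j →
  F (update (update x i true) j true) - F (update (update x i true) j false)
    - F (update (update x i false) j true) + F (update (update x i false) j false) = 4

/-- first difference at the origin -/
def bc (F : (ι → Bool) → ℚ) (i : ι) : ℚ := F (update (fun _ => false) i true) - F (fun _ => false)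

/-- indicator function -/
def ind (S : Finset ι) : ι → Bool := fun i => decide (i ∈ S)

lemma ind_insert (S : Finset ι) (i : ι) : ind (insert i S) = update (ind S) i true := by
  funext j
  by_cases hj : j = i
  · subst hj; simp [ind]
  · simp [ind, hj, update_of_ne hj]

lemma ind_not_mem (S : Finset ι) (i : ι) (h : i ∉ S) : update (ind S) i false = ind S := by
  funext j
  by_cases hj : j = i
  · subst hj; simp [ind, h]
  · simp [update_of_ne hj]

lemma quad_diff {F : (ι → Bool) → ℚ} (hF : Quad4 F) (i : ι) (S : Finset ι) :
    F (update (ind S) i true) - F (update (ind S) i false) = bc F i + 4 * ((S.erase i).card : ℚ) := by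
  induction S using Finset.induction_on with
  | empty =>
    have h0 : ind (∅ : Finset ι) = fun _ => false := by funext j; simp [ind]
    have h1 : update (fun _ : ι => false) i false = fun _ => false := by
      funext j; by_cases hj : j = i
      · subst hj; simp
      · simp [update_of_ne hj]
    rw [h0, h1]; simp [bc]
  | insert l S hl ih =>
    rw [ind_insert]
    by_cases hli : l = i
    · subst hli
      rw [update_idem, update_idem, ih, erase_insert hl, erase_eq_of_notMem hl]
    · have h := hF (ind S) l i hli
      have h2 : update (update (ind S) l false) i true = update (ind S) i true := by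
        rw [ind_not_mem S l hl]
      have h3 : update (update (ind S) l false) i false = update (ind S) i false := by
        rw [ind_not_mem S l hl]
      rw [h2, h3] at h
      have h4 : ((insert l S).erase i).card = (S.erase i).card + 1 := by
        rw [erase_insert_of_ne hli, card_insert_of_notMem]
        simp [hl]
      rw [h4]
      push_cast
      linarith

lemma quad_diff' [Fintype ι] {F : (ι → Bool) → ℚ} (hF : Quad4 F) (i : ι) (x : ι → Bool) :
    F (update x i true) - F (update x i false)
      = bc F i + 4 * (((univ.filter fun j => x j = true).erase i).card : ℚ) := by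
  have h := quad_diff hF i (univ.filter fun j => x j = true)
  have h1 : ind (univ.filter fun j => x j = true) = x := by
    funext j; simp [ind]
  rwa [h1] at h

variable [Fintype ι]

/-- Case 1: many coordinates with the same first difference. -/
theorem quad_case1 {F : (ι → Bool) → ℚ} (hF : Quad4 F) (a β : ℚ) (R : Finset ι)
    (hb : ∀ i ∈ R, bc F i = β) :
    (univ.filter fun x => F x = a).card
      ≤ (2 * (R.card).choose (R.card / 2)) * 2 ^ (Fintype.card ι - R.card) := by
  have hcodom : (univ : Finset ({i // i ∉ R} → Bool)).card = 2 ^ (Fintype.card ι - R.card) := by
    rw [card_univ, Fintype.card_fun, Fintype.card_bool]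
    congr 1
    rw [Fintype.card_subtype_compl]
    simp
  rw [← hcodom]
  apply Finset.card_le_mul_card_image_of_maps_to
    (f := fun (x : ι → Bool) (i : {i // i ∉ R}) => x i.1)
  · intro x _; exact mem_univ _
  · intro y _
    set A := ({x ∈ univ.filter fun x => F x = a | (fun (i : {i // i ∉ R}) => x i.1) = y}) with hA
    let g : Finset {i // i ∈ R} → (ι → Bool) := fun T i =>
      if hi : i ∈ R then decide ((⟨i, hi⟩ : {i // i ∈ R}) ∈ T) else y ⟨i, hi⟩
    set Y : ℕ := (univ.filter fun i : {i // i ∉ R} => y i = true).card with hY
    have hg : ∀ (T : Finset {i // i ∈ R}) (i : {i // i ∈ R}), i ∉ T →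
        g (insert i T) = update (g T) i.1 true ∧ g T = update (g T) i.1 false := by
      intro T i hi
      constructor
      · funext j
        by_cases hj : j = i.1
        · subst hj; simp [g]
        · rw [update_of_ne hj]
          by_cases hjD : j ∈ R
          · have : (⟨j, hjD⟩ : {i // i ∈ R}) ≠ i := fun h' => hj (by rw [← h'])
            simp [g, hjD, mem_insert, this]
          · simp [g, hjD]
      · funext j
        by_cases hj : j = i.1
        · subst hj
          simp [g, hi]
        · rw [update_of_ne hj]
    have hcardg : ∀ (T : Finset {i // i ∈ R}) (i : {i // i ∈ R}), i ∉ T →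
        ((univ.filter fun j => g T j = true).erase i.1).card = T.card + Y := by
      intro T i hi
      have h1 : (univ.filter fun j => g T j = true).erase i.1
          = (T.map (Embedding.subtype _)) ∪
            ((univ.filter fun i : {i // i ∉ R} => y i = true).map (Embedding.subtype _)) := by
        ext j
        simp only [mem_erase, mem_filter, mem_univ, true_and, mem_union, mem_map,
          Embedding.coe_subtype, Subtype.exists, exists_and_right, exists_eq_right]
        by_cases hjD : j ∈ R
        · simp only [g, hjD, dif_pos, decide_eq_true_eq]
          constructor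
          · rintro ⟨_, h⟩; exact Or.inl ⟨trivial, h⟩
          · rintro (⟨_, h⟩ | ⟨h', _⟩)
            · refine ⟨?_, h⟩
              rintro rfl
              exact hi h
            · exact absurd trivial h'
        · simp only [g, hjD, dif_neg, not_false_iff]
          constructor
          · rintro ⟨_, h⟩; exact Or.inr ⟨trivial, h⟩
          · rintro (⟨h', _⟩ | ⟨_, h⟩)
            · exact absurd h' (fun h => h)
            · refine ⟨?_, h⟩
              rintro rfl
              exact hjD i.2
      rw [h1, card_union_of_disjoint, card_map, card_map]
      rw [Finset.disjoint_left]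
      intro j hj1 hj2
      rw [mem_map] at hj1 hj2
      obtain ⟨p, _, hp⟩ := hj1
      obtain ⟨p', _, hp'⟩ := hj2
      apply p'.2
      simp only [Embedding.coe_subtype] at hp hp'
      rw [hp', ← hp]; exact p.2
    have hK : ∀ T : Finset {i // i ∈ R}, F (g T) = F (g ∅) + (β + 4 * Y) * (T.card : ℚ)
        + 2 * ((T.card : ℚ) * (T.card - 1)) := by
      intro T
      induction T using Finset.induction_on with
      | empty => simp
      | insert i T hi ih =>
        have h1 := quad_diff' hF i.1 (g T)
        rw [hcardg T i hi, ← (hg T i hi).1, ← (hg T i hi).2, hb i.1 i.2] at h1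
        rw [card_insert_of_notMem hi]
        push_cast at h1 ⊢
        linarith
    let τ : (ι → Bool) → Finset {i // i ∈ R} := fun x => univ.filter fun i => x i.1 = true
    have hgτ : ∀ x ∈ A, g (τ x) = x := by
      intro x hx
      rw [hA, mem_filter] at hx
      funext j
      by_cases hjD : j ∈ R
      · simp [g, τ, hjD]
      · have := congrFun hx.2 ⟨j, hjD⟩
        simp only at this
        simp [g, hjD, this]
    have hinj : Set.InjOn τ A := by
      intro x hx x' hx' hxx
      rw [← hgτ x hx, hxx, hgτ x' hx']
    rw [← card_image_of_injOn hinj]
    have hlev : ∀ T ∈ A.image τ, F (g T) = a := by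
      intro T hT
      rw [mem_image] at hT
      obtain ⟨x, hx, rfl⟩ := hT
      rw [hgτ x hx]
      rw [hA, mem_filter, mem_filter] at hx
      exact hx.1.2
    have hcR : Fintype.card {i // i ∈ R} = R.card := by simp
    have hmid : ∀ k, (powersetCard k (univ : Finset {i // i ∈ R})).card
        ≤ (R.card).choose (R.card / 2) := by
      intro k
      rw [card_powersetCard, card_univ, hcR]
      exact Nat.choose_le_middle _ _
    rcases (A.image τ).eq_empty_or_nonempty with he | ⟨T0, hT0⟩
    · rw [he]; simp
    · by_cases hex : ∃ T1 ∈ A.image τ, T1.card ≠ T0.card
      · obtain ⟨T1, hT1, hne⟩ := hex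
        have hsub : A.image τ ⊆ powersetCard T0.card univ ∪ powersetCard T1.card univ := by
          intro T hT
          rw [mem_union, mem_powersetCard, mem_powersetCard]
          have e0 := hlev T0 hT0
          have e1 := hlev T1 hT1
          have e2 := hlev T hT
          rw [hK] at e0 e1 e2
          by_contra hcon
          push Not at hcon
          have n0 : T.card ≠ T0.card := hcon.1 (subset_univ _)
          have n1 : T.card ≠ T1.card := hcon.2 (subset_univ _)
          have q0 : (T.card : ℚ) - T0.card ≠ 0 := sub_ne_zero.mpr (by exact_mod_cast n0)
          have q1 : (T.card : ℚ) - T1.card ≠ 0 := sub_ne_zero.mpr (by exact_mod_cast n1)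
          have q2 : (T1.card : ℚ) - T0.card ≠ 0 := sub_ne_zero.mpr (by exact_mod_cast hne)
          have f0 : ((T.card : ℚ) - T0.card) * ((β + 4 * Y) + 2 * (T.card + T0.card - 1)) = 0 := by
            linear_combination e2 - e0
          have f1 : ((T.card : ℚ) - T1.card) * ((β + 4 * Y) + 2 * (T.card + T1.card - 1)) = 0 := by
            linear_combination e2 - e1
          have g0 := (mul_eq_zero.mp f0).resolve_left q0
          have g1 := (mul_eq_zero.mp f1).resolve_left q1
          apply q2
          linarith
        calc (A.image τ).card ≤ _ := card_le_card hsub
          _ ≤ _ := card_union_le _ _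
          _ ≤ _ := by
            have := hmid T0.card
            have := hmid T1.card
            omega
      · push Not at hex
        have hsub : A.image τ ⊆ powersetCard T0.card univ := by
          intro T hT
          rw [mem_powersetCard]
          exact ⟨subset_univ _, hex T hT⟩
        calc (A.image τ).card ≤ _ := card_le_card hsub
          _ ≤ _ := by
            have := hmid T0.card
            omega

end Quad

section Case2

variable {P Q : Type*} [Fintype P] [Fintype Q] [DecidableEq P] [DecidableEq Q]

/-- Case 2: disjoint pairs of coordinates with different first differences. -/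
theorem quad_case2 {F : ((P ⊕ P) ⊕ Q → Bool) → ℚ} (hF : Quad4 F) (a : ℚ)
    (hb : ∀ t : P, bc F (Sum.inl (Sum.inl t)) ≠ bc F (Sum.inl (Sum.inr t))) :
    (univ.filter fun x => F x = a).card
      ≤ 2 ^ (Fintype.card Q) * ∑ D : Finset P,
        (D.card).choose (D.card / 2) * 2 ^ (Fintype.card P - D.card) := by
  set A := (univ.filter fun x => F x = a) with hA
  let Φ : (Q → Bool) → Finset P → (P → Bool) → ((P ⊕ P) ⊕ Q → Bool) := fun V D x =>
    Sum.elim (Sum.elim x (fun t => xor (x t) (decide (t ∈ D)))) V
  let π : ((P ⊕ P) ⊕ Q → Bool) → (Q → Bool) × Finset P := fun y =>
    (fun t => y (Sum.inr t), univ.filter fun t => y (Sum.inl (Sum.inl t)) ≠ y (Sum.inl (Sum.inr t)))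
  have hfib : ∀ VD : (Q → Bool) × Finset P, ({y ∈ A | π y = VD}).card
      ≤ (VD.2.card).choose (VD.2.card / 2) * 2 ^ (Fintype.card P - VD.2.card) := by
    rintro ⟨V, D⟩
    have hΦ : ∀ y, π y = (V, D) → Φ V D (fun t => y (Sum.inl (Sum.inl t))) = y := by
      intro y hy
      simp only [π, Prod.mk.injEq] at hy
      obtain ⟨h1, h2⟩ := hy
      funext i
      rcases i with (t | t) | t
      · simp [Φ]
      · simp only [Φ, Sum.elim_inl, Sum.elim_inr]
        rw [← h2]
        simp only [mem_filter, mem_univ, true_and]
        cases hy1 : y (Sum.inl (Sum.inl t)) <;> cases hy2 : y (Sum.inl (Sum.inr t)) <;> simp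
      · simp only [Φ, Sum.elim_inr]
        rw [← h1]
    have hinj : Set.InjOn (fun (y : (P ⊕ P) ⊕ Q → Bool) (t : P) => y (Sum.inl (Sum.inl t)))
        ({y ∈ A | π y = (V, D)} : Finset _) := by
      intro y hy y' hy' hyy
      rw [mem_coe, mem_filter] at hy hy'
      simp only at hyy
      rw [← hΦ y hy.2, hyy, hΦ y' hy'.2]
    rw [← card_image_of_injOn hinj]
    refine le_trans (card_le_card ?_) (lo_count (fun x => F (Φ V D x)) a D
      (fun t => decide (bc F (Sum.inl (Sum.inr t)) < bc F (Sum.inl (Sum.inl t)))) ?_)
    · intro x hx
      rw [mem_image] at hx
      obtain ⟨y, hy, rfl⟩ := hx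
      rw [mem_filter] at hy
      rw [mem_filter]
      refine ⟨mem_univ _, ?_⟩
      rw [hΦ y hy.2]
      have := hy.1
      rw [hA, mem_filter] at this
      exact this.2
    · intro t ht x
      -- the two updates
      have key : F (Φ V D (update x t true)) - F (Φ V D (update x t false))
          = bc F (Sum.inl (Sum.inl t)) - bc F (Sum.inl (Sum.inr t)) := by
        set i : (P ⊕ P) ⊕ Q := Sum.inl (Sum.inl t) with hi
        set j : (P ⊕ P) ⊕ Q := Sum.inl (Sum.inr t) with hj
        have hij : i ≠ j := by simp [hi, hj]
        set x0 : (P ⊕ P) ⊕ Q → Bool := update (update (Φ V D x) i false) j false with hx0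
        have e1 : Φ V D (update x t true) = update x0 i true := by
          funext k
          by_cases hki : k = i
          · subst hki; simp [Φ, hi]
          · by_cases hkj : k = j
            · subst hkj
              rw [update_of_ne hij.symm, hx0, update_self]
              simp [Φ, hj, ht]
            · rw [update_of_ne hki, hx0, update_of_ne hkj, update_of_ne hki]
              rcases k with (k | k) | k
              · have : k ≠ t := fun h' => hki (by rw [h'])
                simp [Φ, update_of_ne this]
              · have : k ≠ t := fun h' => hkj (by rw [h'])
                simp [Φ, update_of_ne this]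
              · simp [Φ]
        have e2 : Φ V D (update x t false) = update x0 j true := by
          funext k
          by_cases hki : k = i
          · subst hki
            rw [update_of_ne hij, hx0, update_of_ne hij, update_self]
            simp [Φ, hi]
          · by_cases hkj : k = j
            · subst hkj
              rw [update_self]
              simp [Φ, hj, ht]
            · rw [update_of_ne hkj, hx0, update_of_ne hkj, update_of_ne hki]
              rcases k with (k | k) | k
              · have : k ≠ t := fun h' => hki (by rw [h'])
                simp [Φ, update_of_ne this]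
              · have : k ≠ t := fun h' => hkj (by rw [h'])
                simp [Φ, update_of_ne this]
              · simp [Φ]
        have e3 : update x0 i false = x0 := by
          funext k
          by_cases hki : k = i
          · subst hki
            rw [update_self, hx0, update_of_ne hij, update_self]
          · rw [update_of_ne hki]
        have e4 : update x0 j false = x0 := by
          funext k
          by_cases hkj : k = j
          · subst hkj
            rw [update_self, hx0, update_self]
          · rw [update_of_ne hkj]
        have d1 := quad_diff' hF i x0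
        have d2 := quad_diff' hF j x0
        have c1 : (univ.filter fun k => x0 k = true).erase i = univ.filter fun k => x0 k = true := by
          apply erase_eq_of_notMem
          rw [mem_filter, ← e3]; simp
        have c2 : (univ.filter fun k => x0 k = true).erase j = univ.filter fun k => x0 k = true := by
          apply erase_eq_of_notMem
          rw [mem_filter, ← e4]; simp
        rw [c1, e3] at d1
        rw [c2, e4] at d2
        rw [e1, e2]
        linarith
      by_cases hlt : bc F (Sum.inl (Sum.inr t)) < bc F (Sum.inl (Sum.inl t))
      · simp only [hlt, decide_true, Bool.not_true]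
        linarith
      · have hlt' : bc F (Sum.inl (Sum.inl t)) < bc F (Sum.inl (Sum.inr t)) :=
          lt_of_le_of_ne (not_lt.mp hlt) (hb t)
        simp only [hlt, decide_false, Bool.not_false]
        linarith
  calc A.card = ∑ VD : (Q → Bool) × Finset P, ({y ∈ A | π y = VD}).card :=
        card_eq_sum_card_fiberwise (fun _ _ => mem_univ _)
    _ ≤ ∑ VD : (Q → Bool) × Finset P,
        (VD.2.card).choose (VD.2.card / 2) * 2 ^ (Fintype.card P - VD.2.card) :=
        sum_le_sum fun VD _ => hfib VD
    _ = _ := by
      rw [Fintype.sum_prod_type]
      simp

end Case2

end VassBraid
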