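import Pool.Agent.Helper86.Vass.Template

/-!
# Almost all choices of the crossings of a closed braid shadow are detected in degree two

The definitions (braid words, closed braids up to Markov equivalence, rational Vassiliev
invariants, resolutions of a singular closed braid) are in `Pool.Agent.Helper86.Vass.Defs`.
-/

namespace Pool.Agent.Helper86.StrandsCorollary

open VassBraid Finset

/-- Let `s` be a closed braid on `n + 1` strands with `N ≥ 1` free crossings (double points) and
any number of fixed crossings, whose closure has one component.  For every `K`, at most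
`2 (n + 1) / √N * 2 ^ N` of the `2 ^ N` choices of the free crossings give a knot with the same
rational Vassiliev invariants of degree at most `2` as `K`. -/
theorem result (n : ℕ) (s : SWord n) (hs : OneComp s) (hN : 0 < doublePoints s) (K : CBraid) :
    (({ε : Fin (doublePoints s) → Bool |
        SameUpTo 2 ⟨n, fill s (List.ofFn ε)⟩ K}.ncard : ℕ) : ℝ)
      ≤ 2 * ((n : ℝ) + 1) / √(doublePoints s) * 2 ^ (doublePoints s) := by
  classical
  refine le_trans ?_ (template_level s hs hN (f2 K))
  rw [← Set.ncard_coe_finset]
  have hsub : {ε : Fin (doublePoints s) → Bool | SameUpTo 2 ⟨n, fill s (List.ofFn ε)⟩ K}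
      ⊆ ((univ.filter fun ε : Fin (doublePoints s) → Bool =>
        f2 ⟨n, fill s (List.ofFn ε)⟩ = f2 K : Finset _) : Set _) := by
    intro ε hε
    rw [mem_coe, mem_filter]
    exact ⟨mem_univ _, hε f2 f2_vassiliev⟩
  exact_mod_cast Set.ncard_le_ncard hsub (Finset.finite_toSet _)

end Pool.Agent.Helper86.StrandsCorollary
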