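import Pool.Agent.Helper86.Vass.Chain
import Pool.Agent.Helper86.Vass.Cube

/-!
# Level sets of supermodular functions on the cube
-/

namespace VassBraid

open Finset Function

section TwoVar

variable {r : ℕ}

/-- the increments of `G` between comparable points are strictly monotone -/
def StrictInc (G : (Fin r → Bool) → (Fin r → Bool) → ℚ) : Prop :=
  ∀ y y' : Fin r → Bool, (∀ j, y j = true → y' j = true) → ∀ i, y i = false → y' i = true →
    ∀ x, G (update x i false) y' - G (update x i false) y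
      < G (update x i true) y' - G (update x i true) y

lemma pair_count {G : (Fin r → Bool) → (Fin r → Bool) → ℚ} (hG : StrictInc G) (a : ℚ)
    (π : Equiv.Perm (Fin r)) (l d : ℕ) (hld : l + d ≤ r) :
    ((univ.filter fun x => G x (chn π l) = a ∧ G x (chn π (l + d)) = a).card : ℝ)
      ≤ 2 ^ r / √((d : ℝ) + 1) := by
  set T : Finset (Fin r) := univ.filter fun j => chn π l j = false ∧ chn π (l + d) j = true with hT
  have hsub : ∀ j, chn π l j = true → chn π (l + d) j = true := by
    intro j hj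
    simp only [chn, decide_eq_true_eq] at hj ⊢
    omega
  have hTc : T.card = d := by
    have h1 : T = (univ.filter fun j => chn π (l + d) j = true)
        \ (univ.filter fun j => chn π l j = true) := by
      ext j
      simp only [hT, mem_filter, mem_univ, true_and, mem_sdiff, Bool.not_eq_true]
      exact and_comm
    have h2 : (univ.filter fun j => chn π l j = true)
        ⊆ (univ.filter fun j => chn π (l + d) j = true) := by
      intro j hj
      rw [mem_filter] at hj ⊢
      exact ⟨mem_univ _, hsub j hj.2⟩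
    rw [h1, card_sdiff_of_subset h2, card_chn π _ hld, card_chn π _ (by omega)]
    omega
  have h := lo_count (fun x => G x (chn π (l + d)) - G x (chn π l)) 0 T (fun _ => true) (by
    intro i hi x
    rw [hT, mem_filter] at hi
    exact hG _ _ hsub i hi.2.1 hi.2.2 x)
  rw [hTc, Fintype.card_fin] at h
  have h1 : (univ.filter fun x => G x (chn π l) = a ∧ G x (chn π (l + d)) = a).card
      ≤ d.choose (d / 2) * 2 ^ (r - d) := by
    refine le_trans (card_le_card ?_) h
    intro x hx
    rw [mem_filter] at hx ⊢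
    refine ⟨mem_univ _, ?_⟩
    rw [hx.2.1, hx.2.2, sub_self]
  calc ((univ.filter fun x => G x (chn π l) = a ∧ G x (chn π (l + d)) = a).card : ℝ)
      ≤ (d.choose (d / 2) : ℝ) * 2 ^ (r - d) := by exact_mod_cast h1
    _ ≤ (2 ^ d / √((d : ℝ) + 1)) * 2 ^ (r - d) := by
        gcongr
        exact choose_half_le d
    _ = (2 ^ d * 2 ^ (r - d)) / √((d : ℝ) + 1) := by ring
    _ = 2 ^ r / √((d : ℝ) + 1) := by rw [← pow_add, Nat.add_sub_cancel' (by omega)]

lemma sum_inv_sqrt (D : ℕ) : ∑ d ∈ range D, 1 / √((d : ℝ) + 1) ≤ 2 * √(D : ℝ) := by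
  induction D with
  | zero => simp
  | succ D ih =>
    rw [sum_range_succ]
    have h1 : (0 : ℝ) < √((D : ℝ) + 1) := Real.sqrt_pos.mpr (by positivity)
    have h0 : (0 : ℝ) ≤ √(D : ℝ) := Real.sqrt_nonneg _
    have h2 : √((D : ℝ) + 1) ^ 2 = D + 1 := Real.sq_sqrt (by positivity)
    have h3 : √(D : ℝ) ^ 2 = D := Real.sq_sqrt (by positivity)
    have h4 : √(D : ℝ) ≤ √((D : ℝ) + 1) := Real.sqrt_le_sqrt (by linarith)
    have h5 : 1 / √((D : ℝ) + 1) ≤ 2 * √((D : ℝ) + 1) - 2 * √(D : ℝ) := by
      rw [div_le_iff₀ h1]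
      nlinarith
    push_cast
    linarith

lemma weight_bound (hr : 0 < r) :
    ∑ l ∈ range (r + 1), ∑ d ∈ range (r + 1),
      (r.choose l : ℝ) * (r.choose (l + d) : ℝ) * (1 / √((d : ℝ) + 1))
      ≤ 4 ^ r * (3 / √(√(r : ℝ))) := by
  set D := Nat.sqrt r with hD
  have hD2 : D * D ≤ r := Nat.sqrt_le r
  have hD3 : r < (D + 1) * (D + 1) := Nat.lt_succ_sqrt r
  have hrpos : (0 : ℝ) < r := by exact_mod_cast hr
  set ρ : ℝ := √(√(r : ℝ)) with hρ
  have hρpos : 0 < ρ := Real.sqrt_pos.mpr (Real.sqrt_pos.mpr hrpos)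
  have hρ2 : ρ ^ 2 = √(r : ℝ) := Real.sq_sqrt (Real.sqrt_nonneg _)
  have hsr2 : √(r : ℝ) ^ 2 = r := Real.sq_sqrt hrpos.le
  have hDle : (D : ℝ) ≤ √(r : ℝ) := by
    apply Real.le_sqrt_of_sq_le
    rw [sq]; exact_mod_cast hD2
  have hDge : √(r : ℝ) ≤ (D : ℝ) + 1 := by
    rw [Real.sqrt_le_left (by positivity), sq]
    exact_mod_cast hD3.le
  have hsum : ∀ l, ∑ d ∈ range (r + 1), (r.choose (l + d) : ℝ) ≤ 2 ^ r := by
    intro l
    have h1 : ∑ d ∈ range (r + 1), (r.choose (l + d) : ℝ)
        = ∑ m ∈ Ico l (l + (r + 1)), (r.choose m : ℝ) := by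
      rw [sum_Ico_eq_sum_range]; simp
    have h2 : ∑ m ∈ Ico l (l + (r + 1)), (r.choose m : ℝ)
        ≤ ∑ m ∈ range (l + (r + 1)), (r.choose m : ℝ) := by
      apply sum_le_sum_of_subset_of_nonneg
      · intro m hm; rw [mem_Ico] at hm; rw [mem_range]; exact hm.2
      · intro _ _ _; positivity
    have h3 : ∑ m ∈ range (l + (r + 1)), (r.choose m : ℝ) = ∑ m ∈ range (r + 1), (r.choose m : ℝ) := by
      symm
      apply sum_subset
      · intro m hm; rw [mem_range] at hm ⊢; omega
      · intro m _ hm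
        rw [mem_range, not_lt] at hm
        rw [Nat.choose_eq_zero_of_lt (by omega)]; simp
    have h4 : ∑ m ∈ range (r + 1), (r.choose m : ℝ) = 2 ^ r := by
      exact_mod_cast Nat.sum_range_choose r
    rw [h1]; rw [h3, h4] at h2; exact h2
  have hmid : ∀ m, (r.choose m : ℝ) ≤ 2 ^ r / √((r : ℝ) + 1) := by
    intro m
    refine le_trans ?_ (choose_half_le r)
    exact_mod_cast Nat.choose_le_middle m r
  have hinner : ∀ l, ∑ d ∈ range (r + 1), (r.choose (l + d) : ℝ) * (1 / √((d : ℝ) + 1))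
      ≤ 2 ^ r * (3 / ρ) := by
    intro l
    have hA : ∀ d, (r.choose (l + d) : ℝ) * (1 / √((d : ℝ) + 1))
        ≤ (if d < D then 2 ^ r / √((r : ℝ) + 1) * (1 / √((d : ℝ) + 1)) else 0)
          + (r.choose (l + d) : ℝ) * (1 / √((D : ℝ) + 1)) := by
      intro d
      by_cases hd : d < D
      · rw [if_pos hd]
        have h1 : (r.choose (l + d) : ℝ) * (1 / √((d : ℝ) + 1))
            ≤ 2 ^ r / √((r : ℝ) + 1) * (1 / √((d : ℝ) + 1)) := by
          gcongr
          exact hmid _
        have h2 : 0 ≤ (r.choose (l + d) : ℝ) * (1 / √((D : ℝ) + 1)) := by positivity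
        linarith
      · rw [if_neg hd, zero_add]
        push Not at hd
        gcongr
    have hB : ∑ d ∈ range (r + 1), (if d < D then 2 ^ r / √((r : ℝ) + 1) * (1 / √((d : ℝ) + 1)) else 0)
        ≤ 2 ^ r / √((r : ℝ) + 1) * (2 * √(D : ℝ)) := by
      rw [← sum_filter, ← mul_sum]
      gcongr
      refine le_trans ?_ (sum_inv_sqrt D)
      apply sum_le_sum_of_subset_of_nonneg
      · intro d hd; rw [mem_filter] at hd; rw [mem_range]; exact hd.2
      · intro _ _ _; positivity
    have hC : 2 ^ r / √((r : ℝ) + 1) * (2 * √(D : ℝ)) ≤ 2 ^ r * (2 / ρ) := by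
      have h1 : √(D : ℝ) ≤ ρ := Real.sqrt_le_sqrt hDle
      have h2 : ρ ^ 2 ≤ √((r : ℝ) + 1) := by
        rw [hρ2]; exact Real.sqrt_le_sqrt (by linarith)
      have h3 : (0 : ℝ) < √((r : ℝ) + 1) := Real.sqrt_pos.mpr (by positivity)
      calc 2 ^ r / √((r : ℝ) + 1) * (2 * √(D : ℝ)) ≤ 2 ^ r / ρ ^ 2 * (2 * ρ) := by gcongr
        _ = 2 ^ r * (2 / ρ) := by field_simp
    have hE : 1 / √((D : ℝ) + 1) ≤ 1 / ρ := by
      gcongr
      exact Real.sqrt_le_sqrt hDge
    calc ∑ d ∈ range (r + 1), (r.choose (l + d) : ℝ) * (1 / √((d : ℝ) + 1))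
        ≤ ∑ d ∈ range (r + 1), ((if d < D then 2 ^ r / √((r : ℝ) + 1) * (1 / √((d : ℝ) + 1)) else 0)
          + (r.choose (l + d) : ℝ) * (1 / √((D : ℝ) + 1))) := sum_le_sum fun d _ => hA d
      _ = _ := sum_add_distrib
      _ ≤ 2 ^ r * (2 / ρ) + (∑ d ∈ range (r + 1), (r.choose (l + d) : ℝ)) * (1 / √((D : ℝ) + 1)) := by
          rw [← sum_mul]
          gcongr
          exact hB.trans hC
      _ ≤ 2 ^ r * (2 / ρ) + 2 ^ r * (1 / ρ) := by
          gcongr
          exact hsum l
      _ = 2 ^ r * (3 / ρ) := by ring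
  calc ∑ l ∈ range (r + 1), ∑ d ∈ range (r + 1),
      (r.choose l : ℝ) * (r.choose (l + d) : ℝ) * (1 / √((d : ℝ) + 1))
      = ∑ l ∈ range (r + 1), (r.choose l : ℝ) *
        ∑ d ∈ range (r + 1), (r.choose (l + d) : ℝ) * (1 / √((d : ℝ) + 1)) := by
        apply sum_congr rfl; intro l _
        rw [mul_sum]
        apply sum_congr rfl; intro d _
        ring
    _ ≤ ∑ l ∈ range (r + 1), (r.choose l : ℝ) * (2 ^ r * (3 / ρ)) := by
        apply sum_le_sum; intro l _
        gcongr
        exact hinner l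
    _ = (∑ l ∈ range (r + 1), (r.choose l : ℝ)) * (2 ^ r * (3 / ρ)) := by rw [sum_mul]
    _ = 4 ^ r * (3 / ρ) := by
        have h4 : ∑ m ∈ range (r + 1), (r.choose m : ℝ) = 2 ^ r := by
          exact_mod_cast Nat.sum_range_choose r
        rw [h4, ← mul_assoc, ← mul_pow]; norm_num

theorem super_two (hr : 0 < r) {G : (Fin r → Bool) → (Fin r → Bool) → ℚ} (hG : StrictInc G)
    (a : ℚ) :
    (((univ : Finset ((Fin r → Bool) × (Fin r → Bool))).filter
      fun p => G p.1 p.2 = a).card : ℝ) ^ 2 ≤ 16 ^ r * (6 / √(√(r : ℝ))) := by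
  classical
  set P : ℝ := (((univ : Finset ((Fin r → Bool) × (Fin r → Bool))).filter
      fun p => G p.1 p.2 = a).card : ℝ) with hP
  -- weights
  let w : (Fin r → Bool) → Equiv.Perm (Fin r) → ℕ → ℝ := fun x π l =>
    (r.choose l : ℝ) * (if G x (chn π l) = a then 1 else 0)
  have hw : ∀ x π l, 0 ≤ w x π l := by
    intro x π l
    simp only [w]
    split_ifs <;> simp
  have hPsum : P = ∑ x : Fin r → Bool, ∑ y : Fin r → Bool, (if G x y = a then (1 : ℝ) else 0) := by
    rw [hP, card_filter]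
    push_cast
    rw [Fintype.sum_prod_type]
  have h1 : (r.factorial : ℝ) * P = ∑ x : Fin r → Bool, ∑ π : Equiv.Perm (Fin r),
      ∑ l ∈ range (r + 1), w x π l := by
    rw [hPsum, mul_sum]
    apply sum_congr rfl
    intro x _
    rw [← chain_sum (fun y => if G x y = a then (1 : ℝ) else 0), sum_comm]
    apply sum_congr rfl
    intro l _
    rw [mul_sum]
  have hcardp : (univ : Finset ((Fin r → Bool) × Equiv.Perm (Fin r))).card = 2 ^ r * r.factorial := by
    rw [card_univ, Fintype.card_prod, Fintype.card_fun, Fintype.card_bool, Fintype.card_fin,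
      Fintype.card_perm, Fintype.card_fin]
  have h2 : ((r.factorial : ℝ) * P) ^ 2 ≤ (2 ^ r * (r.factorial : ℝ)) *
      ∑ p : (Fin r → Bool) × Equiv.Perm (Fin r), (∑ l ∈ range (r + 1), w p.1 p.2 l) ^ 2 := by
    have := sq_sum_le_card_mul_sum_sq (s := (univ : Finset ((Fin r → Bool) × Equiv.Perm (Fin r))))
      (f := fun p => ∑ l ∈ range (r + 1), w p.1 p.2 l)
    rw [hcardp] at this
    rw [h1, ← Fintype.sum_prod_type (f := fun p : (Fin r → Bool) × Equiv.Perm (Fin r) =>
      ∑ l ∈ range (r + 1), w p.1 p.2 l)]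
    push_cast at this
    exact this
  have h3 : ∑ p : (Fin r → Bool) × Equiv.Perm (Fin r), (∑ l ∈ range (r + 1), w p.1 p.2 l) ^ 2
      ≤ (r.factorial : ℝ) * (2 * (2 ^ r * (4 ^ r * (3 / √(√(r : ℝ)))))) := by
    calc ∑ p : (Fin r → Bool) × Equiv.Perm (Fin r), (∑ l ∈ range (r + 1), w p.1 p.2 l) ^ 2
        ≤ ∑ p : (Fin r → Bool) × Equiv.Perm (Fin r),
          2 * ∑ l ∈ range (r + 1), ∑ d ∈ range (r + 1), w p.1 p.2 l * w p.1 p.2 (l + d) :=
          sum_le_sum fun p _ => sq_sum_le _ _ (hw p.1 p.2)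
      _ = ∑ π : Equiv.Perm (Fin r), 2 * ∑ l ∈ range (r + 1), ∑ d ∈ range (r + 1),
          ∑ x : Fin r → Bool, w x π l * w x π (l + d) := by
          rw [Fintype.sum_prod_type_right]
          apply sum_congr rfl
          intro π _
          rw [← mul_sum]
          congr 1
          rw [sum_comm]
          apply sum_congr rfl
          intro l _
          rw [sum_comm]
      _ ≤ ∑ _π : Equiv.Perm (Fin r), 2 * (2 ^ r * (4 ^ r * (3 / √(√(r : ℝ))))) := by
          apply sum_le_sum
          intro π _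
          gcongr
          refine le_trans ?_ (mul_le_mul_of_nonneg_left (weight_bound hr) (by positivity))
          rw [mul_sum]
          apply sum_le_sum
          intro l _
          rw [mul_sum]
          apply sum_le_sum
          intro d _
          have h4 : ∑ x : Fin r → Bool, w x π l * w x π (l + d)
              = (r.choose l : ℝ) * (r.choose (l + d) : ℝ) *
                ((univ.filter fun x => G x (chn π l) = a ∧ G x (chn π (l + d)) = a).card : ℝ) := by
            rw [card_filter]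
            push_cast
            rw [mul_sum]
            apply sum_congr rfl
            intro x _
            simp only [w]
            by_cases ha : G x (chn π l) = a
            · by_cases hb : G x (chn π (l + d)) = a
              · simp [ha, hb]
              · simp [hb]
            · simp [ha]
          rw [h4]
          by_cases hld : l + d ≤ r
          · have := pair_count hG a π l d hld
            calc (r.choose l : ℝ) * (r.choose (l + d) : ℝ) *
                ((univ.filter fun x => G x (chn π l) = a ∧ G x (chn π (l + d)) = a).card : ℝ)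
                ≤ (r.choose l : ℝ) * (r.choose (l + d) : ℝ) * (2 ^ r / √((d : ℝ) + 1)) := by
                  gcongr
              _ = 2 ^ r * ((r.choose l : ℝ) * (r.choose (l + d) : ℝ) * (1 / √((d : ℝ) + 1))) := by
                  ring
          · rw [Nat.choose_eq_zero_of_lt (by omega : r < l + d)]
            simp
      _ = (r.factorial : ℝ) * (2 * (2 ^ r * (4 ^ r * (3 / √(√(r : ℝ)))))) := by
          rw [sum_const, card_univ, Fintype.card_perm, Fintype.card_fin, nsmul_eq_mul]
  have hfpos : (0 : ℝ) < (r.factorial : ℝ) := by exact_mod_cast Nat.factorial_pos r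
  have h5 : (r.factorial : ℝ) ^ 2 * P ^ 2 ≤ (r.factorial : ℝ) ^ 2 *
      (16 ^ r * (6 / √(√(r : ℝ)))) := by
    calc (r.factorial : ℝ) ^ 2 * P ^ 2 = ((r.factorial : ℝ) * P) ^ 2 := by ring
      _ ≤ _ := h2
      _ ≤ (2 ^ r * (r.factorial : ℝ)) *
          ((r.factorial : ℝ) * (2 * (2 ^ r * (4 ^ r * (3 / √(√(r : ℝ))))))) := by gcongr
      _ = (r.factorial : ℝ) ^ 2 * ((2 * 2 * 4) ^ r * (6 / √(√(r : ℝ)))) := by
          rw [mul_pow, mul_pow]; ring
      _ = _ := by norm_num
  exact le_of_mul_le_mul_left h5 (by positivity)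

end TwoVar

end VassBraid
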