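import Pool.Agent.Helper86.Vass.V2
import Pool.Agent.Helper86.Vass.Cube

/-!
# Resolutions of a singular closed braid
-/

namespace VassBraid

open Finset Function

section

variable {n : ℕ}

/-- resolution with signs given by a sequence -/
def fillN : SWord n → (ℕ → Bool) → Word n
  | [], _ => []
  | (i, some b) :: s, e => (i, b) :: fillN s e
  | (i, none) :: s, e => (i, e 0) :: fillN s (fun t => e (t + 1))

lemma fill_eq (s : SWord n) : ∀ bs : List Bool, fill s bs = fillN s (fun t => bs.getD t true) := by
  induction s with
  | nil => intro bs; simp [fill, fillN]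
  | cons l s ih =>
    intro bs
    obtain ⟨i, b⟩ := l
    cases b with
    | some b => rw [fill, fillN, ih]
    | none =>
      cases bs with
      | nil => rw [fill, fillN, ih]; simp
      | cons c bs => rw [fill, fillN, ih]; simp

@[simp] lemma doublePoints_nil : doublePoints ([] : SWord n) = 0 := rfl

@[simp] lemma doublePoints_some (i : Fin n) (b : Bool) (s : SWord n) :
    doublePoints ((i, some b) :: s) = doublePoints s := by simp [doublePoints]

@[simp] lemma doublePoints_none (i : Fin n) (s : SWord n) :
    doublePoints ((i, none) :: s) = doublePoints s + 1 := by simp [doublePoints]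

lemma doublePoints_append (u v : SWord n) :
    doublePoints (u ++ v) = doublePoints u + doublePoints v := by simp [doublePoints]

lemma fillN_append (u v : SWord n) : ∀ e : ℕ → Bool,
    fillN (u ++ v) e = fillN u e ++ fillN v (fun t => e (t + doublePoints u)) := by
  induction u with
  | nil => intro e; simp [fillN]
  | cons l u ih =>
    intro e
    obtain ⟨i, b⟩ := l
    cases b with
    | some b => rw [List.cons_append, fillN, fillN, ih, doublePoints_some, List.cons_append]
    | none =>
      rw [List.cons_append, fillN, fillN, ih, doublePoints_none, List.cons_append]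
      congr 3

lemma fillN_congr (s : SWord n) : ∀ e e' : ℕ → Bool, (∀ t < doublePoints s, e t = e' t) →
    fillN s e = fillN s e' := by
  induction s with
  | nil => intro e e' _; simp [fillN]
  | cons l s ih =>
    intro e e' h
    obtain ⟨i, b⟩ := l
    cases b with
    | some b =>
      rw [fillN, fillN, ih e e' (by simpa using h)]
    | none =>
      rw [doublePoints_none] at h
      rw [fillN, fillN, h 0 (by omega), ih (fun t => e (t + 1)) (fun t => e' (t + 1))
        (fun t ht => h (t + 1) (by omega))]

@[simp] lemma perm_nil {α : Type*} : perm ([] : List (Fin n × α)) = 1 := rfl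

lemma perm_cons {α : Type*} (l : Fin n × α) (s : List (Fin n × α)) :
    perm (l :: s) = tr l.1 * perm s := by simp [perm]

lemma perm_append {α : Type*} (u v : List (Fin n × α)) :
    perm (u ++ v) = perm u * perm v := by simp [perm]

lemma perm_fillN (s : SWord n) : ∀ e : ℕ → Bool, perm (fillN s e) = perm s := by
  induction s with
  | nil => intro e; simp [fillN]
  | cons l s ih =>
    intro e
    obtain ⟨i, b⟩ := l
    cases b with
    | some b => rw [fillN, perm_cons, perm_cons, ih]
    | none => rw [fillN, perm_cons, perm_cons, ih]

lemma split_none (s : SWord n) : ∀ j < doublePoints s,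
    ∃ (u : SWord n) (i : Fin n) (v : SWord n), s = u ++ (i, none) :: v ∧ doublePoints u = j := by
  induction s with
  | nil => intro j hj; simp at hj
  | cons l s ih =>
    intro j hj
    obtain ⟨i, b⟩ := l
    cases b with
    | some b =>
      rw [doublePoints_some] at hj
      obtain ⟨u, i', v, h1, h2⟩ := ih j hj
      exact ⟨(i, some b) :: u, i', v, by rw [h1]; rfl, by simpa using h2⟩
    | none =>
      rw [doublePoints_none] at hj
      rcases Nat.eq_zero_or_pos j with h0 | h0
      · exact ⟨[], i, s, rfl, by simp [h0]⟩
      · obtain ⟨u, i', v, h1, h2⟩ := ih (j - 1) (by omega)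
        refine ⟨(i, none) :: u, i', v, by rw [h1]; rfl, ?_⟩
        rw [doublePoints_none, h2]; omega

/-- the unordered pairs of strands (numbered by their initial positions) meeting at the
double points -/
def sl : Equiv.Perm (Fin (n + 1)) → SWord n → List (Sym2 (Fin (n + 1)))
  | _, [] => []
  | P, (i, some _) :: s => sl (P * tr i) s
  | P, (i, none) :: s => s(P i.castSucc, P i.succ) :: sl (P * tr i) s

lemma sl_length (s : SWord n) : ∀ P, (sl P s).length = doublePoints s := by
  induction s with
  | nil => intro P; simp [sl]
  | cons l s ih =>
    intro P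
    obtain ⟨i, b⟩ := l
    cases b with
    | some b => rw [sl, ih, doublePoints_some]
    | none => rw [sl, List.length_cons, ih, doublePoints_none]

lemma sl_append (u v : SWord n) : ∀ P, sl P (u ++ v) = sl P u ++ sl (P * perm u) v := by
  induction u with
  | nil => intro P; simp [sl]
  | cons l u ih =>
    intro P
    obtain ⟨i, b⟩ := l
    cases b with
    | some b => rw [List.cons_append, sl, sl, ih, perm_cons, mul_assoc]
    | none => rw [List.cons_append, sl, sl, ih, perm_cons, mul_assoc, List.cons_append]

lemma sl_not_diag (s : SWord n) : ∀ P, ∀ c ∈ sl P s, ¬ c.IsDiag := by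
  induction s with
  | nil => intro P c hc; simp [sl] at hc
  | cons l s ih =>
    intro P c hc
    obtain ⟨i, b⟩ := l
    cases b with
    | some b => rw [sl] at hc; exact ih _ c hc
    | none =>
      rw [sl, List.mem_cons] at hc
      rcases hc with rfl | hc
      · rw [Sym2.mk_isDiag_iff]
        intro h
        exact (Fin.castSucc_lt_succ (i := i)).ne (P.injective h)
      · exact ih _ c hc

lemma sl_getD (u : SWord n) (i : Fin n) (v : SWord n) (c : Sym2 (Fin (n + 1))) :
    (sl 1 (u ++ (i, none) :: v)).getD (doublePoints u) c
      = s(perm u i.castSucc, perm u i.succ) := by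
  rw [sl_append, ← sl_length u 1, List.getD_append_right _ _ _ _ (le_refl _)]
  simp [sl]

lemma swap_eq_of_sym2 {α : Type*} [DecidableEq α] {a b c d : α} (h : s(a, b) = s(c, d)) :
    Equiv.swap a b = Equiv.swap c d := by
  rw [Sym2.eq_iff] at h
  rcases h with ⟨rfl, rfl⟩ | ⟨rfl, rfl⟩
  · rfl
  · exact Equiv.swap_comm _ _

/-- if the two crossings involve the same pair of strands, then removing both of them does not
change the permutation -/
lemma perm_remove (u v w : SWord n) (i j : Fin n)
    (h : s(perm u i.castSucc, perm u i.succ)
      = s(perm (u ++ (i, none) :: v) j.castSucc, perm (u ++ (i, none) :: v) j.succ)) :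
    perm u * perm v * perm w = perm (u ++ (i, none) :: (v ++ (j, none) :: w)) := by
  have h1 := swap_eq_of_sym2 h
  rw [Equiv.swap_apply_apply, Equiv.swap_apply_apply] at h1
  have h2 : Equiv.swap i.castSucc i.succ = tr i := rfl
  have h3 : Equiv.swap j.castSucc j.succ = tr j := rfl
  rw [h2, h3, perm_append, perm_cons] at h1
  rw [perm_append, perm_cons, perm_append, perm_cons]
  simp only
  have hi : tr i * tr i = 1 := by simp [tr]
  have hj : tr j * tr j = 1 := by simp [tr]
  simp only at h1
  -- `h1 : U τ U⁻¹ = (U τ V) τ' (U τ V)⁻¹`
  have h4 : perm u * perm v * perm w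
      = (perm u * tr i * (perm u)⁻¹) * (perm u * tr i * perm v * perm w) := by
    have : (perm u * tr i * (perm u)⁻¹) * (perm u * tr i * perm v * perm w)
      = perm u * (tr i * tr i) * perm v * perm w := by group
    rw [this, hi]; group
  rw [h4, h1]
  group

/-- the value of the degree two invariant on the resolutions -/
noncomputable def gf (s : SWord n) (e : ℕ → Bool) : ℚ := f2 ⟨n, fillN s e⟩

lemma gf_second (s : SWord n) (hs : OneComp s) (j k : ℕ) (hjk : j < k) (hk : k < doublePoints s)
    (c : Sym2 (Fin (n + 1))) (hcl : (sl 1 s).getD j c = (sl 1 s).getD k c) (e : ℕ → Bool) :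
    gf s (update (update e j true) k true) - gf s (update (update e j true) k false)
      - gf s (update (update e j false) k true) + gf s (update (update e j false) k false)
      = 4 := by
  obtain ⟨u, i, s', h1, hu⟩ := split_none s j (hjk.trans hk)
  have hdp : doublePoints s = j + (doublePoints s' + 1) := by
    rw [h1, doublePoints_append, doublePoints_none, hu]
  obtain ⟨v, i', w, h2, hv⟩ := split_none s' (k - j - 1) (by omega)
  subst h2
  have hfill : ∀ b c : Bool, fillN s (update (update e j b) k c)
      = fillN u e ++ (i, b) :: (fillN v (fun t => e (t + (j + 1)))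
        ++ (i', c) :: fillN w (fun t => e (t + (k + 1)))) := by
    intro b c
    rw [h1, fillN_append, fillN, fillN_append, fillN]
    have e1 : fillN u (update (update e j b) k c) = fillN u e := by
      apply fillN_congr
      intro t ht
      rw [hu] at ht
      rw [update_of_ne (by omega), update_of_ne (by omega)]
    have e2 : update (update e j b) k c (0 + doublePoints u) = b := by
      rw [hu, zero_add, update_of_ne (by omega), update_self]
    have e3 : fillN v (fun t => update (update e j b) k c (t + 1 + doublePoints u))
        = fillN v (fun t => e (t + (j + 1))) := by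
      apply fillN_congr
      intro t ht
      rw [hv] at ht
      simp only [hu]
      rw [update_of_ne (by omega), update_of_ne (by omega)]
      congr 1; ring
    have e4 : update (update e j b) k c (0 + doublePoints v + 1 + doublePoints u) = c := by
      have : 0 + doublePoints v + 1 + doublePoints u = k := by rw [hv, hu]; omega
      rw [this, update_self]
    have e5 : fillN w (fun t => update (update e j b) k c (t + 1 + doublePoints v + 1
        + doublePoints u)) = fillN w (fun t => e (t + (k + 1))) := by
      apply fillN_congr
      intro t ht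
      have : t + 1 + doublePoints v + 1 + doublePoints u = t + (k + 1) := by rw [hv, hu]; omega
      simp only [this]
      rw [update_of_ne (by omega), update_of_ne (by omega)]
    simp only [e1, e2, e3, e4, e5]
  have hone : OneComp (fillN u e ++ fillN v (fun t => e (t + (j + 1)))
      ++ fillN w (fun t => e (t + (k + 1)))) := by
    have hp : perm (fillN u e ++ fillN v (fun t => e (t + (j + 1)))
      ++ fillN w (fun t => e (t + (k + 1)))) = perm s := by
      rw [perm_append, perm_append, perm_fillN, perm_fillN, perm_fillN]
      rw [h1]
      apply perm_remove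
      rw [h1] at hcl
      have g1 := sl_getD u i (v ++ (i', none) :: w) c
      rw [hu] at g1
      have g2 := sl_getD (u ++ (i, none) :: v) i' w c
      have h3 : doublePoints (u ++ (i, none) :: v) = k := by
        rw [doublePoints_append, doublePoints_none, hu, hv]; omega
      rw [h3] at g2
      simp only [List.append_assoc, List.cons_append] at g2
      rw [g1, g2] at hcl
      exact hcl
    intro a b
    rw [hp]
    exact hs a b
  have := f2_second (fillN u e) (fillN v (fun t => e (t + (j + 1))))
    (fillN w (fun t => e (t + (k + 1)))) i i' hone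
  simp only [gf, hfill]
  linarith

/-- extension of a finite sequence of signs -/
def ext {N : ℕ} (ε : Fin N → Bool) : ℕ → Bool := fun t => (List.ofFn ε).getD t true

lemma ext_update {N : ℕ} (ε : Fin N → Bool) (j : Fin N) (b : Bool) :
    ext (update ε j b) = update (ext ε) (j : ℕ) b := by
  funext t
  by_cases ht : t = j
  · subst ht
    rw [update_self, ext, List.getD_eq_getElem _ _ (by simp)]
    simp
  · rw [update_of_ne ht, ext, ext]
    by_cases htN : t < N
    · rw [List.getD_eq_getElem _ _ (by simpa using htN), List.getD_eq_getElem _ _ (by simpa using htN)]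
      have : (⟨t, htN⟩ : Fin N) ≠ j := fun h => ht (by rw [← h])
      simp [update_of_ne this]
    · rw [List.getD_eq_default _ _ (by simpa using htN), List.getD_eq_default _ _ (by simpa using htN)]

theorem template_level (s : SWord n) (hs : OneComp s) (hN : 0 < doublePoints s) (a : ℚ) :
    ((univ.filter fun ε : Fin (doublePoints s) → Bool =>
        f2 ⟨n, fill s (List.ofFn ε)⟩ = a).card : ℝ)
      ≤ 2 * ((n : ℝ) + 1) / √(doublePoints s) * 2 ^ (doublePoints s) := by
  classical
  set N := doublePoints s with hNdef
  have hn : 0 < n := by
    rcases Nat.eq_zero_or_pos n with h | h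
    · subst h
      exfalso
      have : s = [] := by
        cases s with
        | nil => rfl
        | cons l s => exact l.1.elim0
      rw [this] at hNdef
      simp at hNdef
      omega
    · exact h
  -- the default pair
  set c0 : Sym2 (Fin (n + 1)) := s(0, 0) with hc0
  set cl : Fin N → Sym2 (Fin (n + 1)) := fun j => (sl 1 s).getD j c0 with hcl
  set t : Finset (Sym2 (Fin (n + 1))) := univ.filter fun c => ¬ c.IsDiag with ht
  have htc : t.card = (n + 1).choose 2 := by
    have := Sym2.card_subtype_not_diag (α := Fin (n + 1))
    rw [Fintype.card_fin, Fintype.card_subtype] at this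
    exact this
  have hmaps : ∀ j ∈ (univ : Finset (Fin N)), cl j ∈ t := by
    intro j _
    rw [ht, mem_filter]
    refine ⟨mem_univ _, ?_⟩
    apply sl_not_diag s 1
    rw [hcl]
    simp only
    rw [List.getD_eq_getElem _ _ (by rw [sl_length]; exact j.2)]
    exact List.getElem_mem _
  have hchoose : (((n + 1).choose 2 : ℕ) : ℝ) = (n : ℝ) * (n + 1) / 2 := by
    rw [Nat.cast_choose_two]
    push_cast; ring
  have hpos : (0 : ℝ) < (n : ℝ) * (n + 1) / 2 := by positivity
  have hNpos : (0 : ℝ) < (N : ℝ) := by exact_mod_cast hN
  have htne : t.Nonempty := ⟨_, hmaps ⟨0, hN⟩ (mem_univ _)⟩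
  obtain ⟨c, _, hc⟩ := exists_le_card_fiber_of_nsmul_le_card_of_maps_to
    (s := (univ : Finset (Fin N))) (t := t) (f := cl) (b := (N : ℝ) / ((n : ℝ) * (n + 1) / 2))
    hmaps htne (by
      rw [htc, nsmul_eq_mul, hchoose, card_univ, Fintype.card_fin]
      rw [mul_div_cancel₀ _ hpos.ne'])
  set J : Finset (Fin N) := univ.filter fun j => cl j = c with hJ
  have hJpos : (0 : ℝ) < (J.card : ℝ) := lt_of_lt_of_le (by positivity) hc
  have hJne : J.Nonempty := by
    rw [← card_pos]; exact_mod_cast hJpos
  have hlevel := quad_level_on (G := fun ε : Fin N → Bool => gf s (ext ε)) J hJne (by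
    intro x i hi j hj hij
    simp only [ext_update]
    rw [hJ, mem_filter] at hi hj
    have hcij : cl i = cl j := by rw [hi.2, hj.2]
    have hij' : (i : ℕ) ≠ j := fun h => hij (Fin.ext h)
    rcases lt_or_gt_of_ne hij' with hlt | hlt
    · exact gf_second s hs i j hlt j.2 c0 hcij (ext x)
    · have := gf_second s hs j i hlt i.2 c0 hcij.symm (ext x)
      have hcomm : ∀ b c : Bool, update (update (ext x) (j : ℕ) b) (i : ℕ) c
          = update (update (ext x) (i : ℕ) c) (j : ℕ) b := by
        intro b c
        funext t
        by_cases h1 : t = i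
        · rw [h1]; simp [update_of_ne hij']
        · by_cases h2 : t = j
          · rw [h2]; simp [update_of_ne hij'.symm]
          · simp [update_of_ne h1, update_of_ne h2]
      simp only [hcomm] at this
      linarith) a
  have hfe : ∀ ε : Fin N → Bool, f2 ⟨n, fill s (List.ofFn ε)⟩ = gf s (ext ε) := by
    intro ε
    rw [gf, fill_eq]
    rfl
  simp only [hfe]
  refine hlevel.trans ?_
  rw [Fintype.card_fin]
  gcongr
  rw [← Real.sqrt_sq (show (0 : ℝ) ≤ 2 * ((n : ℝ) + 1) by positivity), ← Real.sqrt_div (by positivity)]
  apply Real.sqrt_le_sqrt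
  rw [div_le_div_iff₀ hJpos hNpos]
  rw [div_le_iff₀ hpos] at hc
  have h1 : (0 : ℝ) ≤ (J.card : ℝ) * ((n : ℝ) + 1) := by positivity
  nlinarith

end

end VassBraid
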