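import Pool.Agent.Helper86.Vass.AZero

/-!
# The degree two Vassiliev invariant
-/

namespace VassBraid

open Matrix

section Map

variable {R S : Type*} [CommRing R] [CommRing S] (φ : R →+* S) (t : Rˣ)

lemma nm_map {n : ℕ} (i : Fin n) : (nm t i).map φ = nm (Units.map (φ : R →* S) t) i := by
  ext a b
  simp only [nm, Matrix.map_apply, vecMulVec_apply, map_mul, cv, rv, Pi.sub_apply, map_sub,
    Pi.single_apply, apply_ite φ, map_one, map_zero, Units.coe_map]
  rfl

lemma xc_map (b : Bool) : φ (xc t b) = xc (Units.map (φ : R →* S) t) b := by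
  cases b
  · simp only [xc, Bool.false_eq_true, if_false]
    rw [← map_inv]
    rfl
  · simp [xc]

lemma bl_map {n : ℕ} (l : Fin n × Bool) : (bl t l).map φ = bl (Units.map (φ : R →* S) t) l := by
  rw [bl, bl, ← nm_map φ t, ← xc_map φ t]
  ext a b
  simp [Matrix.one_apply, apply_ite φ]

lemma bm_map {n : ℕ} (w : Word n) : (bm t w).map φ = bm (Units.map (φ : R →* S) t) w := by
  induction w with
  | nil => simp
  | cons l w ih => rw [bm_cons, bm_cons, Matrix.map_mul, ih, bl_map]

lemma dt_map {n : ℕ} (w : Word n) : φ (dt t w) = dt (Units.map (φ : R →* S) t) w := by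
  rw [dt, dt, RingHom.map_det, ← bm_map φ t w]
  congr 1
  ext a b
  simp [Matrix.one_apply, vecMulVec_apply, Pi.single_apply, apply_ite φ]

lemma nab_map (x : CBraid) : φ (nab t x) = nab (Units.map (φ : R →* S) t) x := by
  rw [nab, nab, map_mul, dt_map, map_pow]
  congr 1
  rw [← map_zpow]
  rfl

end Map

section VExt

/-- forget the double points -/
def erase {n : ℕ} (s : SWord n) : Word n := s.filterMap fun l => l.2.map fun b => (l.1, b)

lemma vExt_nab {R : Type*} [CommRing R] (t : Rˣ) {n : ℕ} (s : SWord n) : ∀ u : Word n,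
    vExt (nab t) u s = (((t⁻¹ : Rˣ) : R) - t) ^ (doublePoints s) * nab t ⟨n, u ++ erase s⟩ := by
  induction s with
  | nil => intro u; simp [vExt, erase, doublePoints]
  | cons l s ih =>
    intro u
    obtain ⟨i, b⟩ := l
    cases b with
    | some b =>
      have h1 : doublePoints ((i, some b) :: s) = doublePoints s := by
        simp [doublePoints]
      have h2 : erase ((i, some b) :: s) = (i, b) :: erase s := by simp [erase]
      rw [vExt, ih, h1, h2]
      simp
    | none =>
      have h1 : doublePoints ((i, none) :: s) = doublePoints s + 1 := by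
        simp [doublePoints]
      have h2 : erase ((i, none) :: s) = erase s := by simp [erase]
      rw [vExt, ih, ih, h1, h2, pow_succ]
      have h3 := nab_skein t u (erase s) i
      simp only [List.append_assoc, List.singleton_append]
      linear_combination (((t⁻¹ : Rˣ) : R) - t) ^ (doublePoints s) * h3

lemma vExt_comp {A B : Type*} [AddGroup A] [AddGroup B] (φ : A →+ B) (f : CBraid → A) {n : ℕ}
    (s : SWord n) : ∀ u : Word n, vExt (fun x => φ (f x)) u s = φ (vExt f u s) := by
  induction s with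
  | nil => intro u; rfl
  | cons l s ih =>
    intro u
    obtain ⟨i, b⟩ := l
    cases b with
    | some b => rw [vExt, vExt, ih]
    | none => rw [vExt, vExt, ih, ih, map_sub]

end VExt

section PS

open PowerSeries

/-- the unit `1 + X` -/
noncomputable def sX : (PowerSeries ℤ)ˣ :=
  ((PowerSeries.isUnit_iff_constantCoeff (φ := (1 + X : PowerSeries ℤ))).mpr (by simp)).unit

lemma sX_val : ((sX : (PowerSeries ℤ)ˣ) : PowerSeries ℤ) = 1 + X := rfl

/-- the variable `z = s⁻¹ - s` of the Conway polynomial -/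
noncomputable def zX : PowerSeries ℤ := ((sX⁻¹ : (PowerSeries ℤ)ˣ) : PowerSeries ℤ) - sX

lemma sX_mul_inv : (1 + X : PowerSeries ℤ) * ((sX⁻¹ : (PowerSeries ℤ)ˣ) : PowerSeries ℤ) = 1 := by
  rw [← sX_val]; simp

lemma zX_eq : ∃ y : PowerSeries ℤ, zX = X * y ∧ constantCoeff y = -2 := by
  have h0 : constantCoeff ((sX⁻¹ : (PowerSeries ℤ)ˣ) : PowerSeries ℤ) = 1 := by
    have := congrArg constantCoeff sX_mul_inv
    simpa using this
  refine ⟨-(((sX⁻¹ : (PowerSeries ℤ)ˣ) : PowerSeries ℤ)) - 1, ?_, ?_⟩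
  · rw [zX, sX_val]
    linear_combination sX_mul_inv
  · simp [h0]

lemma qn_ne (n : ℕ) : qn (sX ^ 2) n ≠ 0 := by
  intro h
  have := congrArg constantCoeff h
  simp only [qn, Units.val_pow_eq_pow_val, sX_val, map_sum, map_pow, map_add, map_one, map_zero,
    constantCoeff_X, add_zero, one_pow, Finset.sum_const, Finset.card_univ, Fintype.card_fin,
    nsmul_eq_mul, mul_one] at this
  have h2 : ((n + 1 : ℕ) : ℤ) = 0 := this
  omega

/-- the coefficient of `X^2` in the Conway polynomial at `z = (1+X)⁻¹ - (1+X)`; on knots this is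
`4` times the coefficient of `z^2`. -/
noncomputable def f2 (x : CBraid) : ℚ := ((coeff 2 (nab sX x) : ℤ) : ℚ)

lemma f2_invariant : IsKnotInvariant f2 := by
  intro x y _ _ h
  rw [f2, f2, nab_markov sX qn_ne h]

/-- the map `coeff 2` as an additive map to `ℚ` -/
noncomputable def c2 : PowerSeries ℤ →+ ℚ :=
  (Int.castAddHom ℚ).comp ((coeff (R := ℤ) 2).toAddMonoidHom)

lemma c2_apply (p : PowerSeries ℤ) : c2 p = ((coeff 2 p : ℤ) : ℚ) := rfl

lemma f2_vassiliev : IsVassiliev 2 f2 := by
  refine ⟨f2_invariant, ?_⟩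
  intro n s _ hd
  have h1 : vExt f2 [] s = c2 (vExt (nab sX) [] s) := vExt_comp c2 (nab sX) s []
  rw [h1, vExt_nab, c2_apply]
  obtain ⟨y, hy, _⟩ := zX_eq
  have h2 : (((sX⁻¹ : (PowerSeries ℤ)ˣ) : PowerSeries ℤ) - (sX : PowerSeries ℤ)) = X * y := hy
  rw [h2, mul_pow, mul_assoc, coeff_X_pow_mul']
  simp [not_le.mpr hd]

lemma constCoeff_nab {x : CBraid} (h : IsKnot x) : constantCoeff (nab sX x) = 1 := by
  rw [nab_map]
  have h1 : Units.map ((constantCoeff : PowerSeries ℤ →+* ℤ) : PowerSeries ℤ →* ℤ) sX = 1 := by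
    ext
    simp [sX_val]
  rw [h1, nab_one x h]

/-- the mixed second difference of `f2` at two crossings whose removal leaves a knot. -/
lemma f2_second {n : ℕ} (u v w : Word n) (i j : Fin n) (h : OneComp (u ++ v ++ w)) :
    f2 ⟨n, u ++ (i, true) :: (v ++ (j, true) :: w)⟩ - f2 ⟨n, u ++ (i, true) :: (v ++ (j, false) :: w)⟩
      - f2 ⟨n, u ++ (i, false) :: (v ++ (j, true) :: w)⟩
      + f2 ⟨n, u ++ (i, false) :: (v ++ (j, false) :: w)⟩ = 4 := by
  have e1 := nab_skein sX u (v ++ (j, true) :: w) i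
  have e2 := nab_skein sX u (v ++ (j, false) :: w) i
  have e3 := nab_skein sX (u ++ v) w j
  obtain ⟨y, hy, hy2⟩ := zX_eq
  have hz : (((sX⁻¹ : (PowerSeries ℤ)ˣ) : PowerSeries ℤ) - (sX : PowerSeries ℤ)) = X * y := hy
  rw [hz] at e1 e2 e3
  simp only [List.append_assoc] at e3
  have key : nab sX ⟨n, u ++ (i, true) :: (v ++ (j, true) :: w)⟩
      - nab sX ⟨n, u ++ (i, true) :: (v ++ (j, false) :: w)⟩
      - nab sX ⟨n, u ++ (i, false) :: (v ++ (j, true) :: w)⟩
      + nab sX ⟨n, u ++ (i, false) :: (v ++ (j, false) :: w)⟩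
      = X ^ 2 * (y ^ 2 * nab sX ⟨n, u ++ (v ++ w)⟩) := by
    linear_combination e1 - e2 + X * y * e3
  have h2 := congrArg c2 key
  rw [map_add, map_sub, map_sub] at h2
  simp only [c2_apply] at h2
  rw [coeff_X_pow_mul'] at h2
  simp only [le_refl, if_true, Nat.sub_self, coeff_zero_eq_constantCoeff, map_mul, map_pow,
    hy2] at h2
  have h3 : IsKnot ⟨n, u ++ (v ++ w)⟩ := by
    have : u ++ (v ++ w) = u ++ v ++ w := by simp
    rw [IsKnot, this]; exact h
  rw [constCoeff_nab h3] at h2
  simp only [f2]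
  push_cast at h2
  linarith

end PS

end VassBraid
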